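import Pool.Agent.MP_7c5cdb.Periodic

set_option autoImplicit false
open MeasureTheory Set
open scoped ENNReal

namespace Pool.Agent.MP7c5cdb.All

variable {d : ℕ}

/-! ### Geometry in unit scale: radius `1`, period lattice `4 ℤ^d` -/

/-- Squared Euclidean norm. -/
def sq (v : Fin d → ℝ) : ℝ := ∑ i, v i ^ 2

/-- The open unit ball with centre `u`: the points which see the position `u`. -/
def bl (u : Fin d → ℝ) : Set (Fin d → ℝ) := {y | sq (y - u) < 1}

/-- The vector `4 n` of the period lattice. -/
def per (n : Fin d → ℤ) : Fin d → ℝ := fun i => 4 * (n i : ℝ)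

/-- The zone of a step: the points which see exactly one of the two positions. -/
def zone (u u' : Fin d → ℝ) : Set (Fin d → ℝ) := symmDiff (bl u) (bl u')

/-- The union of the translates of the zone. -/
def zoneP (u u' : Fin d → ℝ) : Set (Fin d → ℝ) :=
  {y | ∃ n : Fin d → ℤ, y - per n ∈ zone u u'}

/-- The rows of the fibre over `x`, in unit scale. -/
noncomputable def pt (M : ℕ) (x : Fin d → ℝ) (p : Fin d → ℤ) : Fin d → ℝ :=
  fun i => (x i + (p i : ℝ)) * (4 / (M : ℝ))

/-- The rows lying in a set. -/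
def rowsOf (M : ℕ) (x : Fin d → ℝ) (Y : Set (Fin d → ℝ)) : Set (Fin d → ℤ) :=
  {p | pt M x p ∈ Y}

end Pool.Agent.MP7c5cdb.All
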