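import Mathlib

set_option autoImplicit false

namespace Pool.Agent.MP7c5cdb.All

/-- Flows on a tree given by parents. -/
theorem exists_flow_aux : ∀ {k : ℕ} (par : Fin k → Fin (k + 1)),
    (∀ e, (par e : ℕ) ≤ (e : ℕ)) → ∀ (η : Fin (k + 1) → ℤ), ∑ j, η j = 0 →
    ∃ fl : Fin k → ℤ, (∀ e, |fl e| ≤ ∑ j, |η j|) ∧
      ∀ j, η j = ∑ e, ((if e.succ = j then fl e else 0) - (if par e = j then fl e else 0))
  | 0, par, hpar, η, hη => by
    refine ⟨fun _ => 0, fun e => e.elim0, fun j => ?_⟩
    have hj : j = 0 := Fin.ext (by have := j.isLt; omega)
    rw [hj]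
    simpa using hη
  | k + 1, par, hpar, η, hη => by
    classical
    -- the restricted tree
    let par' : Fin k → Fin (k + 1) := fun e =>
      ⟨(par e.castSucc : ℕ), by
        have h1 := hpar e.castSucc
        have h2 := e.isLt
        rw [Fin.val_castSucc] at h1
        omega⟩
    have hpar'c : ∀ e, (par' e).castSucc = par e.castSucc := by
      intro e
      apply Fin.ext
      simp [par']
    have hlast : par (Fin.last k) ≠ Fin.last (k + 1) := by
      intro h
      have h1 := hpar (Fin.last k)
      rw [h] at h1
      simp at h1
    let η' : Fin (k + 1) → ℤ := fun j =>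
      η j.castSucc + if par (Fin.last k) = j.castSucc then η (Fin.last (k + 1)) else 0
    obtain ⟨p0, hp0⟩ : ∃ p0 : Fin (k + 1), p0.castSucc = par (Fin.last k) := by
      exact Fin.exists_castSucc_eq.2 hlast
    have hη's : ∑ j, η' j = 0 := by
      rw [Fin.sum_univ_castSucc] at hη
      simp only [η']
      rw [Finset.sum_add_distrib, Finset.sum_eq_single p0 (f := fun j : Fin (k + 1) =>
        if par (Fin.last k) = j.castSucc then η (Fin.last (k + 1)) else 0)]
      · rw [if_pos hp0.symm]
        exact hη
      · intro j _ hj
        rw [if_neg]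
        intro h
        exact hj (Fin.castSucc_injective _ (by rw [← h, hp0]))
      · intro h
        exact absurd (Finset.mem_univ _) h
    have hη'a : ∑ j, |η' j| ≤ ∑ j, |η j| := by
      rw [Fin.sum_univ_castSucc (fun j => |η j|)]
      have h1 : ∀ j : Fin (k + 1), |η' j| ≤ |η j.castSucc| +
          if par (Fin.last k) = j.castSucc then |η (Fin.last (k + 1))| else 0 := by
        intro j
        simp only [η']
        split_ifs
        · exact abs_add_le _ _
        · simp
      refine (Finset.sum_le_sum (fun j _ => h1 j)).trans ?_
      rw [Finset.sum_add_distrib, Finset.sum_eq_single p0 (f := fun j : Fin (k + 1) =>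
        if par (Fin.last k) = j.castSucc then |η (Fin.last (k + 1))| else 0)]
      · rw [if_pos hp0.symm]
      · intro j _ hj
        rw [if_neg]
        intro h
        exact hj (Fin.castSucc_injective _ (by rw [← h, hp0]))
      · intro h
        exact absurd (Finset.mem_univ _) h
    obtain ⟨fl, hfl, hfl2⟩ := exists_flow_aux par' (fun e => by
      have h1 := hpar e.castSucc
      rw [Fin.val_castSucc] at h1
      exact h1) η' hη's
    refine ⟨Fin.snoc fl (η (Fin.last (k + 1))), fun e => ?_, fun j => ?_⟩
    · refine Fin.lastCases ?_ (fun e => ?_) e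
      · rw [Fin.snoc_last]
        exact Finset.single_le_sum (f := fun j => |η j|) (fun _ _ => abs_nonneg _)
          (Finset.mem_univ (Fin.last (k + 1)))
      · rw [Fin.snoc_castSucc]
        exact (hfl e).trans hη'a
    · rw [Fin.sum_univ_castSucc]
      simp only [Fin.snoc_castSucc, Fin.snoc_last, Fin.succ_last, Fin.succ_castSucc]
      refine Fin.lastCases ?_ (fun j => ?_) j
      · -- the last vertex
        rw [if_pos rfl, if_neg hlast, Finset.sum_eq_zero, sub_zero, zero_add]
        intro e _
        rw [if_neg, if_neg, sub_zero]
        · rw [← hpar'c]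
          exact Fin.castSucc_ne_last _
        · exact Fin.castSucc_ne_last _
      · have h1 : (Fin.last (k + 1) = j.castSucc) = False := by
          simp only [eq_iff_iff, iff_false]
          exact (Fin.castSucc_ne_last j).symm
        rw [if_neg (by rw [h1]; exact not_false)]
        have h2 := hfl2 j
        simp only [η'] at h2
        have h3 : ∑ e : Fin k, ((if e.succ.castSucc = j.castSucc then fl e else 0) -
            (if par e.castSucc = j.castSucc then fl e else 0)) =
            ∑ e : Fin k, ((if e.succ = j then fl e else 0) -
              (if par' e = j then fl e else 0)) := by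
          refine Finset.sum_congr rfl (fun e _ => ?_)
          simp only [← hpar'c, Fin.castSucc_inj]
        rw [h3, ← h2]
        ring

end Pool.Agent.MP7c5cdb.All
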