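import Pool.Agent.MP_7c5cdb.All.Flow

set_option autoImplicit false

namespace Pool.Agent.MP7c5cdb.All

/-- Distribution of the links over the two ends of their edges. -/
lemma exists_own {k : ℕ} (par : Fin k → Fin (k + 1)) (hpar : ∀ e, (par e : ℕ) ≤ (e : ℕ))
    (el : ℕ) (fl : Fin k → ℤ) (hfl : ∀ e, |fl e| ≤ (el : ℤ)) :
    ∃ own : Fin k × Fin (2 * el) → Fin (k + 1), (∀ c, own c = c.1.succ ∨ own c = par c.1) ∧
      ∀ j, ((Finset.univ.filter (fun c => own c = j)).card : ℤ) =
        ∑ e : Fin k, ((if e.succ = j then (el : ℤ) + fl e else 0) +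
          (if par e = j then (el : ℤ) - fl e else 0)) := by
  classical
  have h0 : ∀ e, 0 ≤ (el : ℤ) + fl e := fun e => by
    have := (abs_le.1 (hfl e)).1
    linarith
  have h1 : ∀ e, (el : ℤ) + fl e ≤ 2 * el := fun e => by
    have := (abs_le.1 (hfl e)).2
    linarith
  refine ⟨fun c => if ((c.2 : ℕ) : ℤ) < (el : ℤ) + fl c.1 then c.1.succ else par c.1,
    fun c => ?_, fun j => ?_⟩
  · by_cases h : ((c.2 : ℕ) : ℤ) < (el : ℤ) + fl c.1
    · left
      simp only [if_pos h]
    · right
      simp only [if_neg h]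
  · have hne : ∀ e : Fin k, e.succ ≠ par e := by
      intro e h
      have h2 := hpar e
      rw [← h] at h2
      simp at h2
    rw [Finset.card_filter, Fintype.sum_prod_type]
    push_cast
    refine Finset.sum_congr rfl (fun e _ => ?_)
    obtain ⟨t, ht⟩ := Int.eq_ofNat_of_zero_le (h0 e)
    have ht2 : t ≤ 2 * el := by
      have := h1 e
      rw [ht] at this
      exact_mod_cast this
    have hlt : (Finset.univ.filter (fun i : Fin (2 * el) => (i : ℕ) < t)).card = t := by
      rw [Fin.card_filter_val_lt]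
      omega
    have hge : (Finset.univ.filter (fun i : Fin (2 * el) => ¬ (i : ℕ) < t)).card = 2 * el - t := by
      have h2 := Finset.card_filter_add_card_filter_not (s := (Finset.univ : Finset (Fin (2 * el))))
        (fun i : Fin (2 * el) => (i : ℕ) < t)
      rw [hlt, Finset.card_univ, Fintype.card_fin] at h2
      omega
    have hfle : fl e = (t : ℤ) - el := by
      have : (el : ℤ) + fl e = t := ht
      linarith
    rw [hfle]
    have hstep : ∀ i : Fin (2 * el),
        (if (if ((i : ℕ) : ℤ) < (el : ℤ) + ((t : ℤ) - el) then e.succ else par e) = j then (1 : ℤ)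
          else 0) =
        (if (i : ℕ) < t then (if e.succ = j then (1 : ℤ) else 0) else 0) +
          (if ¬ (i : ℕ) < t then (if par e = j then (1 : ℤ) else 0) else 0) := by
      intro i
      have h3 : (((i : ℕ) : ℤ) < (el : ℤ) + ((t : ℤ) - el)) ↔ (i : ℕ) < t := by
        constructor
        · intro h; omega
        · intro h; omega
      by_cases h4 : (i : ℕ) < t
      · rw [if_pos (h3.2 h4), if_pos h4, if_neg (not_not.2 h4), add_zero]
      · rw [if_neg (fun h => h4 (h3.1 h)), if_neg h4, if_pos h4, zero_add]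
    have hs1 : ∑ i : Fin (2 * el), (if (i : ℕ) < t then (if e.succ = j then (1 : ℤ) else 0)
        else 0) = if e.succ = j then (el : ℤ) + ((t : ℤ) - el) else 0 := by
      rw [← Finset.sum_filter, Finset.sum_const, hlt]
      split_ifs <;> simp
    have hs2 : ∑ i : Fin (2 * el), (if ¬ (i : ℕ) < t then (if par e = j then (1 : ℤ) else 0)
        else 0) = if par e = j then (el : ℤ) - ((t : ℤ) - el) else 0 := by
      rw [← Finset.sum_filter, Finset.sum_const, hge]
      split_ifs
      · rw [nsmul_eq_mul, mul_one, Nat.cast_sub ht2]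
        push_cast
        ring
      · simp
    rw [Finset.sum_congr rfl (fun i _ => hstep i), Finset.sum_add_distrib, hs1, hs2]

open Classical in
/-- **Choice of the numbers** (arithmetical part). `cX x g`, `cN x j`, `cB x j` are counts
close to `vX g * m`, `vN j * m`, `vB j * m`; `n g` columns in the group `g`, `lam g` of them
special, `mu j` mains, `2 * el` links per edge. -/
theorem numbers_arith {Γ k : ℕ} (comp : Fin Γ → Fin (k + 1)) (par : Fin k → Fin (k + 1))
    (hpar : ∀ e, (par e : ℕ) ≤ (e : ℕ)) (vX : Fin Γ → ℝ) (vN vB : Fin (k + 1) → ℝ)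
    {V : ℝ} (hV : 0 < V) (hX : ∀ g, 0 ≤ vX g) (hB : ∀ j, V ≤ vB j) (hN : ∀ j, V ≤ vN j)
    (hsm : ∀ g, vX g ≤ V / 4) :
    ∃ δ : ℝ, 0 < δ ∧ ∃ m0 : ℝ, ∀ m : ℝ, m0 ≤ m → 0 < m → ∀ {S : Type} [Nonempty S]
      (cX : S → Fin Γ → ℕ) (cN cB : S → Fin (k + 1) → ℕ) (tot : ℕ),
      (∀ x g, |(cX x g : ℝ) - vX g * m| ≤ δ * m) →
      (∀ x j, |(cN x j : ℝ) - vN j * m| ≤ δ * m) →
      (∀ x j, |(cB x j : ℝ) - vB j * m| ≤ δ * m) →
      (∀ x, ∑ g, cX x g + ∑ j, cN x j = tot) →
      ∃ (n lam : Fin Γ → ℕ) (mu : Fin (k + 1) → ℕ) (el : ℕ),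
        (∀ g, lam g ≤ n g) ∧ (∀ g, n g ≤ mu (comp g)) ∧
        (∀ j, ∑ g ∈ Finset.univ.filter (fun g => comp g = j), lam g ≤ mu j) ∧
        (∑ j, mu j + ∑ g, n g + k * (2 * el) = tot) ∧
        ∀ x, (∀ g, n g - lam g ≤ cX x g ∧ cX x g ≤ n g) ∧
          ∃ own : Fin k × Fin (2 * el) → Fin (k + 1),
            (∀ c, own c = c.1.succ ∨ own c = par c.1) ∧
            ∀ j, cN x j = mu j +
                ∑ g ∈ Finset.univ.filter (fun g => comp g = j), (n g - cX x g) +
                (Finset.univ.filter (fun c => own c = j)).card ∧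
              (Finset.univ.filter (fun c => own c = j)).card ≤ cB x j := by
  classical
  set W : ℝ := (k : ℝ) + 1 + Γ with hW
  have hk0 : (0 : ℝ) ≤ k := Nat.cast_nonneg k
  have hΓ0 : (0 : ℝ) ≤ Γ := Nat.cast_nonneg Γ
  have hW1 : 1 ≤ W := by rw [hW]; linarith
  have hWW : W ≤ W ^ 2 := by nlinarith
  refine ⟨V / (40 * W ^ 2), by positivity, 8 * W / V, ?_⟩
  intro m hm0 hm S _ cX cN cB tot hcX hcN hcB htot
  set δ : ℝ := V / (40 * W ^ 2) with hδ
  have hδ0 : 0 < δ := by rw [hδ]; positivity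
  have hδW : 40 * (δ * W ^ 2) = V := by
    rw [hδ]
    field_simp
  have hmV : 8 * W ≤ V * m := by
    rw [div_le_iff₀ hV] at hm0
    linarith
  have hδm : 0 < δ * m := mul_pos hδ0 hm
  obtain ⟨x0⟩ : Nonempty S := inferInstance
  -- the numbers
  let n : Fin Γ → ℕ := fun g => ⌊(vX g + δ) * m⌋₊
  let lam : Fin Γ → ℕ := fun g => min (n g) ⌊2 * δ * m⌋₊
  let el : ℕ := ⌈2 * δ * m * W⌉₊
  have hnx : ∀ x g, cX x g ≤ n g := by
    intro x g
    refine Nat.le_floor ?_
    have := (abs_le.1 (hcX x g)).2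
    nlinarith
  have hn_le : ∀ g, (n g : ℝ) ≤ (vX g + δ) * m := by
    intro g
    exact Nat.floor_le (mul_nonneg (add_nonneg (hX g) hδ0.le) hm.le)
  have hlam_le : ∀ g, (lam g : ℝ) ≤ 2 * δ * m := by
    intro g
    have h1 : lam g ≤ ⌊2 * δ * m⌋₊ := min_le_right _ _
    calc (lam g : ℝ) ≤ (⌊2 * δ * m⌋₊ : ℝ) := by exact_mod_cast h1
      _ ≤ 2 * δ * m := Nat.floor_le (by positivity)
  have hlamn : ∀ g, lam g ≤ n g := fun g => min_le_left _ _
  have hnl : ∀ x g, n g - lam g ≤ cX x g := by
    intro x g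
    rcases le_total (n g) ⌊2 * δ * m⌋₊ with h | h
    · have : lam g = n g := min_eq_left h
      rw [this, Nat.sub_self]
      exact Nat.zero_le _
    · have h1 : lam g = ⌊2 * δ * m⌋₊ := min_eq_right h
      rw [h1]
      have h2 : (n g : ℝ) - (⌊2 * δ * m⌋₊ : ℝ) < (cX x g : ℝ) + 1 := by
        have h3 := Nat.lt_floor_add_one (2 * δ * m)
        have h4 := hn_le g
        have h5 := (abs_le.1 (hcX x g)).1
        nlinarith
      have h3 : ((n g - ⌊2 * δ * m⌋₊ : ℕ) : ℝ) < ((cX x g + 1 : ℕ) : ℝ) := by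
        rw [Nat.cast_sub h]
        push_cast
        exact h2
      have h4 : n g - ⌊2 * δ * m⌋₊ < cX x g + 1 := by exact_mod_cast h3
      omega
  have hel_ge : 2 * δ * m * W ≤ (el : ℝ) := Nat.le_ceil _
  have hel_le : (el : ℝ) ≤ 2 * δ * m * W + 1 := by
    exact (Nat.ceil_lt_add_one (by positivity)).le
  -- the losers
  let L : S → Fin (k + 1) → ℕ := fun x j =>
    ∑ g ∈ Finset.univ.filter (fun g => comp g = j), (n g - cX x g)
  have hLcast : ∀ x j, ((L x j : ℕ) : ℤ) =
      ∑ g ∈ Finset.univ.filter (fun g => comp g = j), ((n g : ℤ) - cX x g) := by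
    intro x j
    simp only [L]
    push_cast
    refine Finset.sum_congr rfl (fun g _ => ?_)
    rw [Nat.cast_sub (hnx x g)]
  have hterm : ∀ x g, ((n g - cX x g : ℕ) : ℝ) ≤ 2 * δ * m := by
    intro x g
    rw [Nat.cast_sub (hnx x g)]
    have h1 := hn_le g
    have h2 := (abs_le.1 (hcX x g)).1
    nlinarith
  have hLle : ∀ x j, (L x j : ℝ) ≤ Γ * (2 * δ * m) := by
    intro x j
    simp only [L]
    push_cast
    refine (Finset.sum_le_card_nsmul _ _ (2 * δ * m) (fun g _ => ?_)).trans ?_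
    · exact_mod_cast hterm x g
    · rw [nsmul_eq_mul]
      refine mul_le_mul_of_nonneg_right ?_ (by positivity)
      have h3 : (Finset.univ.filter (fun g : Fin Γ => comp g = j)).card ≤ Γ := by
        refine (Finset.card_filter_le _ _).trans ?_
        rw [Finset.card_univ, Fintype.card_fin]
      exact_mod_cast h3
  -- the degrees
  let deg : Fin (k + 1) → ℕ := fun j =>
    ∑ e : Fin k, ((if e.succ = j then 1 else 0) + (if par e = j then 1 else 0))
  have hdeg_le : ∀ j, (deg j : ℝ) ≤ 2 * k := by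
    intro j
    have h1 : deg j ≤ 2 * k := by
      simp only [deg]
      calc ∑ e : Fin k, ((if e.succ = j then 1 else 0) + (if par e = j then 1 else 0))
          ≤ ∑ _e : Fin k, 2 := Finset.sum_le_sum (fun e _ => by split_ifs <;> omega)
        _ = 2 * k := by simp [mul_comm]
    exact_mod_cast h1
  have hdeg_sum : ∑ j, deg j = 2 * k := by
    simp only [deg]
    rw [Finset.sum_comm]
    have h1 : ∀ e : Fin k, ∑ j : Fin (k + 1),
        ((if e.succ = j then 1 else 0) + (if par e = j then 1 else 0)) = 2 := by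
      intro e
      rw [Finset.sum_add_distrib, Finset.sum_ite_eq, Finset.sum_ite_eq,
        if_pos (Finset.mem_univ _), if_pos (Finset.mem_univ _)]
    rw [Finset.sum_congr rfl (fun e _ => h1 e)]
    simp [mul_comm]
  -- numerical facts
  have hW2 : W * (δ * m) ≤ W ^ 2 * (δ * m) := mul_le_mul_of_nonneg_right hWW hδm.le
  have h1W : δ * m ≤ W ^ 2 * (δ * m) := by nlinarith
  have hVm : 40 * (W ^ 2 * (δ * m)) = V * m := by
    rw [← hδW]
    ring
  have hkW : (k : ℝ) ≤ W := by rw [hW]; linarith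
  have hΓW : (Γ : ℝ) ≤ W := by rw [hW]; linarith
  have hkWW : (k : ℝ) * (W * (δ * m)) ≤ W ^ 2 * (δ * m) := by
    have h1 : (k : ℝ) * (W * (δ * m)) ≤ W * (W * (δ * m)) :=
      mul_le_mul_of_nonneg_right hkW (by positivity)
    calc _ ≤ _ := h1
      _ = _ := by ring
  have hΓWW : (Γ : ℝ) * (δ * m) ≤ W ^ 2 * (δ * m) := by
    have h1 : (Γ : ℝ) * (δ * m) ≤ W * (δ * m) := mul_le_mul_of_nonneg_right hΓW hδm.le
    exact h1.trans hW2
  have hedeg : ∀ j, (el : ℝ) * (deg j : ℝ) ≤ 4 * (W ^ 2 * (δ * m)) + 2 * W := by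
    intro j
    have h1 : (el : ℝ) * (deg j : ℝ) ≤ (2 * δ * m * W + 1) * (2 * k) :=
      mul_le_mul hel_le (hdeg_le j) (Nat.cast_nonneg _) (by positivity)
    have h2 : (2 * δ * m * W + 1) * (2 * (k : ℝ)) = 4 * ((k : ℝ) * (W * (δ * m))) + 2 * k := by ring
    rw [h2] at h1
    linarith
  have hmu_big : ∀ j, (V / 4 + δ) * m + 2 * (Γ * (δ * m)) ≤
      (cN x0 j : ℝ) - (L x0 j : ℝ) - (el : ℝ) * (deg j : ℝ) := by
    intro j
    have h1 := (abs_le.1 (hcN x0 j)).1
    have h2 := hLle x0 j
    have h3 := hedeg j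
    have h4 : V * m ≤ vN j * m := mul_le_mul_of_nonneg_right (hN j) hm.le
    have h5 : (L x0 j : ℝ) ≤ 2 * (W ^ 2 * (δ * m)) := by
      refine h2.trans ?_
      have : (Γ : ℝ) * (2 * δ * m) = 2 * (Γ * (δ * m)) := by ring
      rw [this]
      linarith
    nlinarith
  let muZ : Fin (k + 1) → ℤ := fun j => (cN x0 j : ℤ) - (L x0 j : ℤ) - (el : ℤ) * (deg j : ℤ)
  have hmu0 : ∀ j, 0 ≤ muZ j := by
    intro j
    have h1 := hmu_big j
    have h2 : (0 : ℝ) ≤ (muZ j : ℝ) := by
      simp only [muZ]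
      push_cast
      refine le_trans ?_ h1
      positivity
    exact_mod_cast h2
  let mu : Fin (k + 1) → ℕ := fun j => (muZ j).toNat
  have hmuZ : ∀ j, (mu j : ℤ) = muZ j := fun j => Int.toNat_of_nonneg (hmu0 j)
  have hmuR : ∀ j, (mu j : ℝ) = (cN x0 j : ℝ) - (L x0 j : ℝ) - (el : ℝ) * (deg j : ℝ) := by
    intro j
    have h1 : ((mu j : ℤ) : ℝ) = ((muZ j : ℤ) : ℝ) := by rw [hmuZ]
    simp only [muZ] at h1
    push_cast at h1
    exact h1
  refine ⟨n, lam, mu, el, hlamn, fun g => ?_, fun j => ?_, ?_, fun x => ⟨fun g =>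
    ⟨hnl x g, hnx x g⟩, ?_⟩⟩
  · have h1 : (n g : ℝ) ≤ (mu (comp g) : ℝ) := by
      rw [hmuR]
      refine le_trans ?_ (hmu_big (comp g))
      have h2 := hn_le g
      have h3 : vX g * m ≤ V / 4 * m := mul_le_mul_of_nonneg_right (hsm g) hm.le
      have h4 : 0 ≤ 2 * ((Γ : ℝ) * (δ * m)) := by positivity
      nlinarith
    exact_mod_cast h1
  · have h1 : ((∑ g ∈ Finset.univ.filter (fun g => comp g = j), lam g : ℕ) : ℝ) ≤ (mu j : ℝ) := by
      rw [hmuR]
      refine le_trans ?_ (hmu_big j)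
      push_cast
      have h2 : ∑ g ∈ Finset.univ.filter (fun g => comp g = j), (lam g : ℝ) ≤
          Γ * (2 * δ * m) := by
        refine (Finset.sum_le_card_nsmul _ _ (2 * δ * m) (fun g _ => hlam_le g)).trans ?_
        rw [nsmul_eq_mul]
        refine mul_le_mul_of_nonneg_right ?_ (by positivity)
        have h3 : (Finset.univ.filter (fun g : Fin Γ => comp g = j)).card ≤ Γ := by
          refine (Finset.card_filter_le _ _).trans ?_
          rw [Finset.card_univ, Fintype.card_fin]
        exact_mod_cast h3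
      have h4 : 0 ≤ (V / 4 + δ) * m := by positivity
      nlinarith
    exact_mod_cast h1
  · have h1 : (∑ j, (mu j : ℤ)) = ∑ j, (cN x0 j : ℤ) - ∑ g, ((n g : ℤ) - cX x0 g) -
        (el : ℤ) * (2 * k) := by
      simp only [hmuZ, muZ]
      rw [Finset.sum_sub_distrib, Finset.sum_sub_distrib, ← Finset.mul_sum]
      congr 1
      · congr 1
        simp only [hLcast]
        rw [Finset.sum_fiberwise (s := Finset.univ) (g := comp)
          (f := fun g => (n g : ℤ) - (cX x0 g : ℤ))]
      · congr 1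
        exact_mod_cast hdeg_sum
    have h2 : ((∑ g, cX x0 g + ∑ j, cN x0 j : ℕ) : ℤ) = tot := by rw [htot x0]
    push_cast at h2
    have h3 : ((∑ j, mu j + ∑ g, n g + k * (2 * el) : ℕ) : ℤ) = tot := by
      push_cast
      rw [h1, Finset.sum_sub_distrib, ← h2]
      ring
    exact_mod_cast h3
  · -- the flow
    let η : Fin (k + 1) → ℤ := fun j =>
      ((cN x j : ℤ) - (L x j : ℤ)) - ((cN x0 j : ℤ) - (L x0 j : ℤ))
    have hsumN : ∀ y, ∑ j, ((cN y j : ℤ) - (L y j : ℤ)) = (tot : ℤ) - ∑ g, (n g : ℤ) := by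
      intro y
      rw [Finset.sum_sub_distrib]
      simp only [hLcast]
      rw [Finset.sum_fiberwise (s := Finset.univ) (g := comp)
        (f := fun g => (n g : ℤ) - (cX y g : ℤ)), Finset.sum_sub_distrib]
      have h2 : ((∑ g, cX y g + ∑ j, cN y j : ℕ) : ℤ) = tot := by rw [htot y]
      push_cast at h2
      linarith
    have hη : ∑ j, η j = 0 := by
      simp only [η]
      rw [Finset.sum_sub_distrib, hsumN, hsumN, sub_self]
    obtain ⟨fl, hfl1, hfl2⟩ := exists_flow_aux par hpar η hη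
    have hηa : ((∑ j, |η j| : ℤ) : ℝ) ≤ 2 * δ * m * W := by
      have h1 : ∀ j, (|η j| : ℤ) ≤ |(cN x j : ℤ) - cN x0 j| +
          ∑ g ∈ Finset.univ.filter (fun g => comp g = j), |(cX x g : ℤ) - cX x0 g| := by
        intro j
        have h2 : η j = ((cN x j : ℤ) - cN x0 j) +
            ∑ g ∈ Finset.univ.filter (fun g => comp g = j), ((cX x g : ℤ) - cX x0 g) := by
          simp only [η, hLcast]
          have h3 : ∑ g ∈ Finset.univ.filter (fun g => comp g = j), ((cX x g : ℤ) - cX x0 g) =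
              ∑ g ∈ Finset.univ.filter (fun g => comp g = j), ((n g : ℤ) - cX x0 g) -
              ∑ g ∈ Finset.univ.filter (fun g => comp g = j), ((n g : ℤ) - cX x g) := by
            rw [← Finset.sum_sub_distrib]
            refine Finset.sum_congr rfl (fun g _ => ?_)
            ring
          rw [h3]
          ring
        rw [h2]
        refine (abs_add_le _ _).trans ?_
        gcongr
        exact Finset.abs_sum_le_sum_abs _ _
      have h2 : (∑ j, |η j| : ℤ) ≤ ∑ j, |(cN x j : ℤ) - cN x0 j| +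
          ∑ g, |(cX x g : ℤ) - cX x0 g| := by
        refine (Finset.sum_le_sum (fun j _ => h1 j)).trans ?_
        rw [Finset.sum_add_distrib, Finset.sum_fiberwise (s := Finset.univ) (g := comp)
          (f := fun g => |(cX x g : ℤ) - (cX x0 g : ℤ)|)]
      have h3 : ((∑ j, |η j| : ℤ) : ℝ) ≤ ∑ j, |(cN x j : ℝ) - cN x0 j| +
          ∑ g, |(cX x g : ℝ) - cX x0 g| := by
        have := (Int.cast_le (R := ℝ)).2 h2
        push_cast at this ⊢
        exact this
      have h4 : ∑ j, |(cN x j : ℝ) - cN x0 j| ≤ ((k : ℝ) + 1) * (2 * δ * m) := by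
        refine (Finset.sum_le_card_nsmul _ _ (2 * δ * m) (fun j _ => ?_)).trans ?_
        · have h5 := hcN x j
          have h6 := hcN x0 j
          rw [abs_le] at h5 h6 ⊢
          constructor <;> linarith [h5.1, h5.2, h6.1, h6.2]
        · rw [nsmul_eq_mul, Finset.card_univ, Fintype.card_fin]
          push_cast
          exact le_rfl
      have h5 : ∑ g, |(cX x g : ℝ) - cX x0 g| ≤ (Γ : ℝ) * (2 * δ * m) := by
        refine (Finset.sum_le_card_nsmul _ _ (2 * δ * m) (fun g _ => ?_)).trans ?_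
        · have h5 := hcX x g
          have h6 := hcX x0 g
          rw [abs_le] at h5 h6 ⊢
          constructor <;> linarith [h5.1, h5.2, h6.1, h6.2]
        · rw [nsmul_eq_mul, Finset.card_univ, Fintype.card_fin]
      have h6 : 2 * δ * m * W = ((k : ℝ) + 1) * (2 * δ * m) + (Γ : ℝ) * (2 * δ * m) := by
        rw [hW]
        ring
      rw [h6]
      linarith
    have hflel : ∀ e, |fl e| ≤ (el : ℤ) := by
      intro e
      have h1 : ((|fl e| : ℤ) : ℝ) ≤ (el : ℝ) := by
        have h2 := (Int.cast_le (R := ℝ)).2 (hfl1 e)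
        linarith
      exact_mod_cast h1
    obtain ⟨own, hown, hcard⟩ := exists_own par hpar el fl hflel
    refine ⟨own, hown, fun j => ?_⟩
    have hcj : ((Finset.univ.filter (fun c => own c = j)).card : ℤ) =
        (el : ℤ) * (deg j : ℤ) + η j := by
      rw [hcard j, hfl2 j]
      simp only [deg]
      push_cast
      rw [Finset.mul_sum, ← Finset.sum_add_distrib]
      refine Finset.sum_congr rfl (fun e _ => ?_)
      split_ifs <;> ring
    constructor
    · have h1 : (cN x j : ℤ) = (mu j : ℤ) + (L x j : ℤ) +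
          ((Finset.univ.filter (fun c => own c = j)).card : ℤ) := by
        rw [hcj, hmuZ]
        simp only [muZ, η]
        ring
      have h2 : (cN x j : ℤ) = ((mu j + L x j +
          (Finset.univ.filter (fun c => own c = j)).card : ℕ) : ℤ) := by
        rw [h1]
        push_cast
        rfl
      exact_mod_cast h2
    · have h1 : ((η j : ℤ) : ℝ) ≤ 2 * δ * m * W := by
        refine le_trans ?_ hηa
        have h2 : η j ≤ ∑ j, |η j| := (le_abs_self _).trans
          (Finset.single_le_sum (f := fun j => |η j|) (fun _ _ => abs_nonneg _)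
            (Finset.mem_univ j))
        exact_mod_cast h2
      have h3 : ((Finset.univ.filter (fun c => own c = j)).card : ℝ) =
          (el : ℝ) * (deg j : ℝ) + (η j : ℝ) := by
        have := congrArg (Int.cast (R := ℝ)) hcj
        push_cast at this
        exact this
      have h4 : ((Finset.univ.filter (fun c => own c = j)).card : ℝ) ≤ (cB x j : ℝ) := by
        rw [h3]
        have h5 := hedeg j
        have h6 := (abs_le.1 (hcB x j)).1
        have h7 : V * m ≤ vB j * m := mul_le_mul_of_nonneg_right (hB j) hm.le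
        have h8 : 2 * δ * m * W ≤ 2 * (W ^ 2 * (δ * m)) := by
          have : 2 * δ * m * W = 2 * (W * (δ * m)) := by ring
          rw [this]
          linarith
        nlinarith
      exact_mod_cast h4

end Pool.Agent.MP7c5cdb.All
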