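import Pool.Agent.MP_7c5cdb.All.Defs
import Pool.Agent.Helper13.GGood

set_option autoImplicit false
open MeasureTheory Set
open scoped ENNReal

namespace Pool.Agent.MP7c5cdb.All

open Pool.Agent.Helper7.GPat

variable {d : ℕ}

/-- Layout of the design, root version. Components `j` with roots `z j`, tree edges `e` between
`e + 1` and `par e`, groups `g` with positions `u g` in the component `comp g`, links `w e`. -/
structure RLay (d : ℕ) where
  k : ℕ
  Γ : ℕ
  z : Fin (k + 1) → Fin d → ℝ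
  par : Fin k → Fin (k + 1)
  comp : Fin Γ → Fin (k + 1)
  u : Fin Γ → Fin d → ℝ
  w : Fin k → Fin d → ℝ
  eta : ℝ

namespace RLay

variable (Y : RLay d)

/-- Zone of a group: compare with the root. -/
def S (g : Fin Y.Γ) : Set (Fin d → ℝ) := zone (Y.u g) (Y.z (Y.comp g))

/-- Periodised zone of a group. -/
def SP (g : Fin Y.Γ) : Set (Fin d → ℝ) := zoneP (Y.u g) (Y.z (Y.comp g))

/-- The part of the zone outside of the earlier zones. -/
def X (g : Fin Y.Γ) : Set (Fin d → ℝ) := {y | y ∈ Y.S g ∧ ∀ g', g' < g → y ∉ Y.SP g'}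

/-- The uncut points. -/
def U : Set (Fin d → ℝ) := {y | ∀ g, y ∉ Y.SP g}

/-- The uncut points of the component `j` (translation `0`). -/
def N (j : Fin (Y.k + 1)) : Set (Fin d → ℝ) := {y | y ∈ Y.U ∧ y ∈ bl (Y.z j)}

/-- The small neighbourhood of the root `j`. -/
def nb (j : Fin (Y.k + 1)) : Set (Fin d → ℝ) := {y | sq (y - Y.z j) < Y.eta ^ 2}

/-- The properties of a good layout. -/
structure Good : Prop where
  par_le : ∀ e : Fin Y.k, (Y.par e : ℕ) ≤ (e : ℕ)
  close : ∀ g, sq (Y.u g - Y.z (Y.comp g)) ≤ 1 / 4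
  eta_pos : 0 < Y.eta
  vol_small : ∀ g, (volume (Y.X g)).toReal ≤
    (1 / 4) * (volume {v : Fin d → ℝ | sq v < Y.eta ^ 2}).toReal
  uncut : ∀ y ∈ Y.U, ∃ (j : Fin (Y.k + 1)) (n : Fin d → ℤ),
    (∀ g n', y - per n' ∈ bl (Y.u g) ↔ Y.comp g = j ∧ n' = n) ∧
    (∀ j' n', y - per n' ∈ bl (Y.z j') ↔ j' = j ∧ n' = n) ∧
    (∀ e n', y - per n' ∈ bl (Y.w e) → n' = n ∧ (e.succ = j ∨ Y.par e = j))
  nbhd : ∀ j, ∀ y ∈ Y.nb j, y ∈ Y.U ∧ y ∈ bl (Y.z j) ∧
    ∀ e : Fin Y.k, (e.succ = j ∨ Y.par e = j) → y ∈ bl (Y.w e)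

/-- Offset of the specials of a group. -/
def off {Γ : ℕ} (lam : Fin Γ → ℕ) (g : Fin Γ) : ℕ := ∑ g' ∈ Finset.univ.filter (· < g), lam g'

/-- The numerical conditions which make the design well defined. -/
structure Num (n lam : Fin Y.Γ → ℕ) (mu : Fin (Y.k + 1) → ℕ) : Prop where
  lam_le : ∀ g, lam g ≤ n g
  n_le : ∀ g, n g ≤ mu (Y.comp g)
  sum_le : ∀ j, ∑ g, lam g ≤ mu j

lemma off_add_lt {n lam : Fin Y.Γ → ℕ} {mu : Fin (Y.k + 1) → ℕ} (h : Y.Num n lam mu)
    (g : Fin Y.Γ) {a : ℕ} (ha : a < lam g) (j : Fin (Y.k + 1)) : off lam g + a < mu j := by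
  have h1 : off lam g + lam g ≤ ∑ g, lam g := by
    unfold off
    have h2 : ∑ g' ∈ insert g (Finset.univ.filter (· < g)), lam g' ≤ ∑ g, lam g :=
      Finset.sum_le_sum_of_subset (Finset.subset_univ _)
    rw [Finset.sum_insert (by simp)] at h2
    omega
  have h3 := h.sum_le j
  omega

lemma off_mono {lam : Fin Y.Γ → ℕ} {g g' : Fin Y.Γ} (h : g < g') :
    off lam g + lam g ≤ off lam g' := by
  unfold off
  have h2 : ∑ g'' ∈ insert g (Finset.univ.filter (· < g)), lam g'' ≤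
      ∑ g'' ∈ Finset.univ.filter (· < g'), lam g'' := by
    refine Finset.sum_le_sum_of_subset ?_
    intro i hi
    rw [Finset.mem_insert, Finset.mem_filter] at hi
    rw [Finset.mem_filter]
    refine ⟨Finset.mem_univ _, ?_⟩
    rcases hi with rfl | hi
    · exact h
    · exact hi.2.trans h
  rw [Finset.sum_insert (by simp)] at h2
  omega

/-- The design: `iota g a = off g + a` modulo `mu`. -/
def des (n lam : Fin Y.Γ → ℕ) (mu : Fin (Y.k + 1) → ℕ) (h : Y.Num n lam mu) (l : ℕ) : Des where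
  k := Y.k + 1
  Γ := Y.Γ
  E := Y.k
  l := l
  comp := Y.comp
  μ := mu
  n := n
  lam := lam
  iota g a := ⟨(off lam g + a.1) % mu (Y.comp g),
    Nat.mod_lt _ (lt_of_lt_of_le (lt_of_le_of_lt (Nat.zero_le _) a.2) (h.n_le g))⟩
  iota_inj := by
    intro g a a' haa
    have h1 := congrArg Fin.val haa
    simp only at h1
    have h2 := h.n_le g
    have ha := a.2
    have ha' := a'.2
    have h3 : (a.1 : ℕ) ≡ a'.1 [MOD mu (Y.comp g)] :=
      Nat.ModEq.add_left_cancel' (off lam g) h1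
    refine Fin.ext ?_
    exact Nat.ModEq.eq_of_lt_of_lt h3 (by omega) (by omega)
  spec_inj := by
    intro g g' a a' ha ha' heq
    have hv : (off lam g + a.1) % mu (Y.comp g) = (off lam g' + a'.1) % mu (Y.comp g') := by
      rw [Sigma.mk.injEq] at heq
      obtain ⟨h1, h2⟩ := heq
      have h3 : ∀ {j j' : Fin (Y.k + 1)} (hj : j = j') (p : Fin (mu j)) (q : Fin (mu j')),
          p ≍ q → p.1 = q.1 := by
        intro j j' hj p q hpq
        subst hj
        exact congrArg Fin.val (eq_of_heq hpq)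
      exact h3 h1 _ _ h2
    rw [Nat.mod_eq_of_lt (Y.off_add_lt h g ha _),
      Nat.mod_eq_of_lt (Y.off_add_lt h g' ha' _)] at hv
    by_contra hne
    rcases lt_or_gt_of_ne hne with hlt | hlt
    · have := Y.off_mono (lam := lam) hlt
      omega
    · have := Y.off_mono (lam := lam) hlt
      omega

/-- The real position of a position of the design. -/
def posn (n lam : Fin Y.Γ → ℕ) (mu : Fin (Y.k + 1) → ℕ) (h : Y.Num n lam mu) (l : ℕ) :
    (Y.des n lam mu h l).Pos → (Fin d → ℝ)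
  | .inl j => Y.z j
  | .inr (.inl g) => Y.u g
  | .inr (.inr e) => Y.w e

end RLay

end Pool.Agent.MP7c5cdb.All
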