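import Pool.Agent.MP_7c5cdb.All.Tr

set_option autoImplicit false
open MeasureTheory Set
open scoped ENNReal

namespace Pool.Agent.MP7c5cdb.All

open Tr in
/-- ROW B1. Saturated packing whose points form a tree with edges exactly `3/2`:
maximal number of points, intermediate value theorem, compactness. -/
theorem exists_packing (d : ℕ) :
    ∃ (k : ℕ) (z : Fin (k + 1) → Fin d → ℝ) (par : Fin k → Fin (k + 1)) (R : ℝ),
      (∀ e, (par e : ℕ) ≤ (e : ℕ)) ∧
      (∀ e : Fin k, sq (z e.succ - z (par e)) = 9 / 4) ∧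
      (∀ (i j : Fin (k + 1)) (n : Fin d → ℤ), (i ≠ j ∨ n ≠ 0) → 9 / 4 ≤ sq (z i - z j - per n)) ∧
      0 ≤ R ∧ R < 3 / 2 ∧
      (∀ y : Fin d → ℝ, ∃ (j : Fin (k + 1)) (n : Fin d → ℤ), sq (y - per n - z j) ≤ R ^ 2) := by
  obtain ⟨k, z, par, R, hR, hc, hcov⟩ := Geo.pack_tree (PL d)
    (fun p hp h0 => le_trans (by norm_num) (PL_norm p hp h0))
    (isCompact_closedBall (0 : EuclideanSpace ℝ (Fin d)) (4 * (d + 1))) PL_cocompact
  have hR0 : 0 ≤ R := by
    obtain ⟨j, -, p, -, h⟩ := hcov 0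
    exact (norm_nonneg _).trans h
  have hte : ∀ i, te (z i).ofLp = z i := fun i => rfl
  refine ⟨k, fun i => (z i).ofLp, fun e => ⟨par e, ?_⟩, R, ?_, ?_, ?_, hR0, hR, ?_⟩
  · have := (hc.tree e e.2).1
    have := e.2
    omega
  · exact fun e => (hc.tree e e.2).1
  · intro e
    rw [sq_eq, te_sub, hte, hte]
    have := (hc.tree e e.2).2
    simp only [Fin.val_succ]
    rw [this]
    norm_num
  · intro i j n hne
    have h1 := hc.sep i (Nat.lt_succ_iff.1 i.2) j (Nat.lt_succ_iff.1 j.2) (te (per n)) (mem_PL n) (by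
      rcases hne with h | h
      · exact Or.inl fun h2 => h (Fin.ext h2)
      · exact Or.inr (te_per_ne.2 h))
    have h2 := (le_sq_iff (v := (z i).ofLp - (z j).ofLp - per n) (r := 3 / 2)
      (by norm_num)).2 h1
    calc (9 / 4 : ℝ) = (3 / 2) ^ 2 := by norm_num
      _ ≤ _ := h2
  · intro y
    obtain ⟨j, hj, p, ⟨n, rfl⟩, h⟩ := hcov (te y)
    refine ⟨⟨j, Nat.lt_succ_iff.2 hj⟩, n, ?_⟩
    rw [sq_le_iff hR0, te_sub, te_sub, hte]
    have h2 : te y - te (per n) - z j = te y - z j - te (per n) := by abel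
    simp only
    rw [h2]
    exact h

end Pool.Agent.MP7c5cdb.All
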