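import Pool.Agent.MP_7c5cdb.All.Tr

set_option autoImplicit false
open MeasureTheory Set
open scoped ENNReal

namespace Pool.Agent.MP7c5cdb.All

variable {d : ℕ}

open Tr in
/-- ROW B2a. The finite net. -/
theorem exists_net (d : ℕ) (R : ℝ) (hR : R < 3 / 2) :
    ∃ (t ϱ : ℝ) (Λ : ℕ) (f : Fin (Λ + 1) → Fin d → ℝ),
      R < t ∧ 5 / 4 < t ∧ t < 1 + ϱ ∧ ϱ < 1 / 2 ∧
      (∀ l, sq (f l) ≤ ϱ ^ 2) ∧
      (∀ v : Fin d → ℝ, sq v ≤ t ^ 2 → ∃ l, sq (v - f l) < 1) ∧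
      (∀ v : Fin d → ℝ, 9 / 16 ≤ sq v → ∃ l, 1 ≤ sq (v - f l)) := by
  obtain ⟨t, ht1, ht2⟩ := exists_between (max_lt hR (show (5 / 4 : ℝ) < 3 / 2 by norm_num))
  obtain ⟨ϱ, hϱ1, hϱ2⟩ := exists_between (show t - 1 < 1 / 2 by linarith)
  have hRt : R < t := (le_max_left _ _).trans_lt ht1
  have h5t : 5 / 4 < t := (le_max_right _ _).trans_lt ht1
  obtain ⟨F, hne, hF, hF1, hF2⟩ := Geo.net (E := EuclideanSpace ℝ (Fin d)) (t := t) (ρ := ϱ)
    (by linarith) (by linarith)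
  have hϱ0 : 0 ≤ ϱ := by linarith
  have ht0 : 0 ≤ t := by linarith
  obtain ⟨Λ, hΛ⟩ : ∃ Λ, F.card = Λ + 1 := ⟨F.card - 1, by have := hne.card_pos; omega⟩
  have e : Fin (Λ + 1) ≃ F := (finCongr hΛ.symm).trans F.equivFin.symm
  refine ⟨t, ϱ, Λ, fun l => (e l : EuclideanSpace ℝ (Fin d)).ofLp, hRt, h5t, by linarith, hϱ2,
    ?_, ?_, ?_⟩
  · intro l
    rw [sq_le_iff hϱ0]
    exact hF _ (e l).2
  · intro v hv
    rw [sq_le_iff ht0] at hv
    obtain ⟨f, hf, h⟩ := hF1 (te v) hv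
    refine ⟨e.symm ⟨f, hf⟩, ?_⟩
    simp only [Equiv.apply_symm_apply]
    have h1 := (sq_lt_iff (v := v - f.ofLp) (r := 1) zero_le_one).2 h
    rwa [one_pow] at h1
  · intro v hv
    have hv' : (3 / 4 : ℝ) ≤ ‖te v‖ := by
      rw [← le_sq_iff (by norm_num)]
      calc ((3 / 4 : ℝ)) ^ 2 = 9 / 16 := by norm_num
        _ ≤ _ := hv
    obtain ⟨f, hf, h⟩ := hF2 (te v) hv'
    refine ⟨e.symm ⟨f, hf⟩, ?_⟩
    simp only [Equiv.apply_symm_apply]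
    have h1 := (le_sq_iff (v := v - f.ofLp) (r := 1) zero_le_one).2 h
    rwa [one_pow] at h1

namespace Tr

/-- Extension of a finite family of points. -/
noncomputable def zx {k : ℕ} (z : Fin (k + 1) → Fin d → ℝ) (i : ℕ) : EuclideanSpace ℝ (Fin d) :=
  if h : i < k + 1 then te (z ⟨i, h⟩) else 0

/-- Extension of the parents. -/
def parx {k : ℕ} (par : Fin k → Fin (k + 1)) (e : ℕ) : ℕ :=
  if h : e < k then (par ⟨e, h⟩ : ℕ) else 0

theorem zx_fin {k : ℕ} (z : Fin (k + 1) → Fin d → ℝ) (i : Fin (k + 1)) :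
    zx z (i : ℕ) = te (z i) := by
  unfold zx
  rw [dif_pos i.2]

theorem parx_fin {k : ℕ} (par : Fin k → Fin (k + 1)) (e : Fin k) :
    parx par (e : ℕ) = (par e : ℕ) := by
  unfold parx
  rw [dif_pos e.2]

theorem link_eq {k : ℕ} (z : Fin (k + 1) → Fin d → ℝ) (par : Fin k → Fin (k + 1)) (e : Fin k) :
    te (fun i => (z e.succ i + z (par e) i) / 2) = Geo.lk (zx z) (parx par) e := by
  unfold Geo.lk
  have h1 : zx z ((e : ℕ) + 1) = te (z e.succ) := by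
    have := zx_fin z e.succ
    rwa [Fin.val_succ] at this
  rw [h1, parx_fin, zx_fin]
  rw [← te_add, ← te_smul]
  congr 1
  funext i
  simp only [Pi.smul_apply, Pi.add_apply, smul_eq_mul]
  ring

theorem pk {k : ℕ} {z : Fin (k + 1) → Fin d → ℝ} {par : Fin k → Fin (k + 1)}
    (hpack : ∀ (i j : Fin (k + 1)) (n : Fin d → ℤ), (i ≠ j ∨ n ≠ 0) →
      9 / 4 ≤ sq (z i - z j - per n))
    (hedge : ∀ e : Fin k, sq (z e.succ - z (par e)) = 9 / 4) :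
    Geo.Pk (PL d) k (zx z) (parx par) := by
  refine ⟨?_, ?_⟩
  · intro e he
    have h1 := zx_fin z (Fin.succ ⟨e, he⟩)
    rw [Fin.val_succ] at h1
    have h2 := parx_fin par ⟨e, he⟩
    simp only at h1 h2
    rw [h1, h2, zx_fin]
    refine ⟨Nat.lt_succ_iff.1 (par ⟨e, he⟩).2, ?_⟩
    have h3 := hedge ⟨e, he⟩
    rw [sq_eq, te_sub] at h3
    have h4 : (9 / 4 : ℝ) = (3 / 2) ^ 2 := by norm_num
    rw [h4] at h3
    exact (pow_left_inj₀ (norm_nonneg _) (by norm_num) (by norm_num)).1 h3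
  · rintro i hi j hj _ ⟨n, rfl⟩ hne
    have h1 := zx_fin z ⟨i, Nat.lt_succ_iff.2 hi⟩
    have h2 := zx_fin z ⟨j, Nat.lt_succ_iff.2 hj⟩
    simp only at h1 h2
    rw [h1, h2]
    have h3 := hpack ⟨i, Nat.lt_succ_iff.2 hi⟩ ⟨j, Nat.lt_succ_iff.2 hj⟩ n (by
      rcases hne with h | h
      · exact Or.inl fun h2 => h (congrArg Fin.val h2)
      · exact Or.inr (te_per_ne.1 h))
    have h4 : (9 / 4 : ℝ) = (3 / 2) ^ 2 := by norm_num
    rw [h4, le_sq_iff (by norm_num)] at h3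
    exact h3

end Tr

open Tr in
/-- ROW B2b. Uncut points see exactly one component: `A` is any set of positions (all positions
of the design, with the translate they belong to) which contains the net points.
Here `P j u` says that `u` is a position of component `j`. -/
theorem uncut_facts {k : ℕ} (z : Fin (k + 1) → Fin d → ℝ) (par : Fin k → Fin (k + 1)) (R t ϱ : ℝ)
    (hpack : ∀ (i j : Fin (k + 1)) (n : Fin d → ℤ), (i ≠ j ∨ n ≠ 0) →
      9 / 4 ≤ sq (z i - z j - per n))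
    (hedge : ∀ e : Fin k, sq (z e.succ - z (par e)) = 9 / 4)
    (hcov : ∀ y : Fin d → ℝ, ∃ (j : Fin (k + 1)) (n : Fin d → ℤ), sq (y - per n - z j) ≤ R ^ 2)
    (hR0 : 0 ≤ R) (hRt : R < t) (ht : 5 / 4 < t) (htϱ : t < 1 + ϱ) (hϱ : ϱ < 1 / 2)
    {Λ : ℕ} (f : Fin (Λ + 1) → Fin d → ℝ) (_hf : ∀ l, sq (f l) ≤ ϱ ^ 2)
    (hF1 : ∀ v : Fin d → ℝ, sq v ≤ t ^ 2 → ∃ l, sq (v - f l) < 1)
    (hF2 : ∀ v : Fin d → ℝ, 9 / 16 ≤ sq v → ∃ l, 1 ≤ sq (v - f l))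
    (P : Fin (k + 1) → Set (Fin d → ℝ)) (hP : ∀ j, ∀ u ∈ P j, sq (u - z j) ≤ ϱ ^ 2)
    (hPf : ∀ j l, z j + f l ∈ P j)
    (y : Fin d → ℝ)
    (hy : ∀ (j : Fin (k + 1)) (n : Fin d → ℤ), ∀ u ∈ P j, ∀ u' ∈ P j,
      (y - per n ∈ bl u ↔ y - per n ∈ bl u')) :
    ∃ (j : Fin (k + 1)) (n : Fin d → ℤ),
      (∀ j' n', ∀ u ∈ P j', (y - per n' ∈ bl u ↔ j' = j ∧ n' = n)) ∧
      (∀ (e : Fin k) (n' : Fin d → ℤ),
        y - per n' ∈ bl (fun i => (z e.succ i + z (par e) i) / 2) →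
          n' = n ∧ (e.succ = j ∨ par e = j)) := by
  have hϱ0 : 0 ≤ ϱ := by linarith
  have ht0 : 0 ≤ t := by linarith
  set U : ℕ → Set (EuclideanSpace ℝ (Fin d)) :=
    fun i => {x | ∃ h : i < k + 1, x.ofLp ∈ P ⟨i, h⟩} with hU
  have hUm : ∀ (i : Fin (k + 1)) (u : Fin d → ℝ), u ∈ P i → te u ∈ U (i : ℕ) :=
    fun i u hu => ⟨i.2, hu⟩
  have hpos : Geo.Pos (PL d) k (zx z) (parx par) R t ϱ U := by
    refine ⟨pk hpack hedge, ?_, hRt, ht, hϱ0, hϱ, ?_, ?_, ?_⟩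
    · intro x
      obtain ⟨j, n, h⟩ := hcov x.ofLp
      refine ⟨j, Nat.lt_succ_iff.1 j.2, te (per n), mem_PL n, ?_⟩
      rw [zx_fin]
      rw [sq_le_iff hR0, te_sub, te_sub] at h
      have h2 : x - te (z j) - te (per n) = te x.ofLp - te (per n) - te (z j) := by
        change x - te (z j) - te (per n) = x - te (per n) - te (z j)
        abel
      rw [h2]
      exact h
    · rintro j hj u ⟨hj', hu⟩
      have h1 := zx_fin z ⟨j, hj'⟩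
      simp only at h1
      rw [h1]
      have h2 := hP _ _ hu
      rw [sq_le_iff hϱ0, te_sub] at h2
      exact h2
    · intro j hj v hv
      obtain ⟨l, hl⟩ := hF1 v.ofLp ((sq_le_iff ht0).2 hv)
      refine ⟨te (z ⟨j, Nat.lt_succ_iff.2 hj⟩ + f l), ⟨Nat.lt_succ_iff.2 hj, hPf _ l⟩, ?_⟩
      have h1 := zx_fin z ⟨j, Nat.lt_succ_iff.2 hj⟩
      simp only at h1
      rw [h1, te_add]
      have h2 : sq (v.ofLp - f l) < 1 ^ 2 := by rwa [one_pow]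
      rw [sq_lt_iff zero_le_one, te_sub] at h2
      have h3 : v - (te (z ⟨j, Nat.lt_succ_iff.2 hj⟩) + te (f l) -
          te (z ⟨j, Nat.lt_succ_iff.2 hj⟩)) = te v.ofLp - te (f l) := by
        change v - (te (z ⟨j, Nat.lt_succ_iff.2 hj⟩) + te (f l) -
          te (z ⟨j, Nat.lt_succ_iff.2 hj⟩)) = v - te (f l)
        abel
      rw [h3]
      exact h2
    · intro j hj v hv
      have hv' : (9 / 16 : ℝ) ≤ sq v.ofLp := by
        have h4 : (3 / 4 : ℝ) ^ 2 ≤ sq v.ofLp := (le_sq_iff (by norm_num)).2 hv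
        calc (9 / 16 : ℝ) = (3 / 4) ^ 2 := by norm_num
          _ ≤ _ := h4
      obtain ⟨l, hl⟩ := hF2 v.ofLp hv'
      refine ⟨te (z ⟨j, Nat.lt_succ_iff.2 hj⟩ + f l), ⟨Nat.lt_succ_iff.2 hj, hPf _ l⟩, ?_⟩
      have h1 := zx_fin z ⟨j, Nat.lt_succ_iff.2 hj⟩
      simp only at h1
      rw [h1, te_add]
      have h2 : 1 ^ 2 ≤ sq (v.ofLp - f l) := by rwa [one_pow]
      rw [le_sq_iff zero_le_one, te_sub] at h2
      have h3 : v - (te (z ⟨j, Nat.lt_succ_iff.2 hj⟩) + te (f l) -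
          te (z ⟨j, Nat.lt_succ_iff.2 hj⟩)) = te v.ofLp - te (f l) := by
        change v - (te (z ⟨j, Nat.lt_succ_iff.2 hj⟩) + te (f l) -
          te (z ⟨j, Nat.lt_succ_iff.2 hj⟩)) = v - te (f l)
        abel
      rw [h3]
      exact h2
  have hbl : ∀ (n : Fin d → ℤ) (u : Fin d → ℝ),
      y - per n ∈ bl u ↔ ‖te y - te (per n) - te u‖ < 1 := by
    intro n u
    rw [mem_bl, te_sub]
  have hunc : Geo.Uncut (PL d) k U (te y) := by
    rintro j hj _ ⟨n, rfl⟩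
    by_cases h : y - per n ∈ bl (z ⟨j, Nat.lt_succ_iff.2 hj⟩ + f 0)
    · left
      rintro u ⟨hj', hu⟩
      have h1 := (hy ⟨j, hj'⟩ n _ (hPf _ 0) _ hu).1 h
      rw [hbl] at h1
      exact h1
    · right
      rintro u ⟨hj', hu⟩ h1
      exact h ((hy ⟨j, hj'⟩ n _ (hPf _ 0) _ hu).2 ((hbl n u.ofLp).2 h1))
  obtain ⟨j, hj, _, ⟨n, rfl⟩, h1, h2, h3⟩ := hpos.exists_home hunc
  refine ⟨⟨j, Nat.lt_succ_iff.2 hj⟩, n, ?_, ?_⟩
  · intro j' n' u hu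
    rw [hbl]
    constructor
    · intro h4
      by_contra hc
      have h5 : (j' : ℕ) ≠ j ∨ te (per n') ≠ te (per n) := by
        by_contra hc2
        push Not at hc2
        exact hc ⟨Fin.ext hc2.1, per_inj (te_inj hc2.2)⟩
      exact (h3 j' (Nat.lt_succ_iff.1 j'.2) _ (mem_PL n') h5).1 _ (hUm j' u hu) h4
    · rintro ⟨rfl, rfl⟩
      exact h1 _ (hUm ⟨j, Nat.lt_succ_iff.2 hj⟩ u hu)
  · intro e n' h4
    rw [hbl, link_eq] at h4
    obtain ⟨h5, h6⟩ := hpos.link (fun i hi p' hp' hne => (h3 i hi p' hp' hne).2) e.2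
      (mem_PL n') h4
    refine ⟨per_inj (te_inj h5), ?_⟩
    rw [parx_fin] at h6
    rcases h6 with h6 | h6
    · left
      apply Fin.ext
      rw [Fin.val_succ]
      exact h6.symm
    · right
      apply Fin.ext
      exact h6.symm

open Tr in
/-- ROW B2c. The neighbourhood of a centre. -/
theorem nbhd_facts {k : ℕ} (z : Fin (k + 1) → Fin d → ℝ) (par : Fin k → Fin (k + 1)) (ϱ : ℝ)
    (hpack : ∀ (i j : Fin (k + 1)) (n : Fin d → ℤ), (i ≠ j ∨ n ≠ 0) →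
      9 / 4 ≤ sq (z i - z j - per n))
    (hedge : ∀ e : Fin k, sq (z e.succ - z (par e)) = 9 / 4)
    (hϱ0 : 1 / 4 < ϱ) (hϱ : ϱ < 1 / 2)
    (j : Fin (k + 1)) (y : Fin d → ℝ) (hy : sq (y - z j) < (1 / 2 - ϱ) ^ 2) :
    (∀ u, sq (u - z j) ≤ ϱ ^ 2 → y ∈ bl u) ∧
    (∀ (j' : Fin (k + 1)) (n' : Fin d → ℤ), (j' ≠ j ∨ n' ≠ 0) →
      ∀ u, sq (u - z j') ≤ ϱ ^ 2 → y - per n' ∉ bl u) ∧
    (∀ e : Fin k, (e.succ = j ∨ par e = j) →
      y ∈ bl (fun i => (z e.succ i + z (par e) i) / 2)) := by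
  have hr0 : 0 ≤ ϱ := by linarith
  set U : ℕ → Set (EuclideanSpace ℝ (Fin d)) :=
    fun i => {x | ‖x - zx z i‖ ≤ ϱ} with hU
  have hy1 : ‖te y - zx z (j : ℕ)‖ < 1 / 2 - ϱ := by
    rw [zx_fin]
    rwa [sq_lt_iff (by linarith), te_sub] at hy
  obtain ⟨h1, h2, h3⟩ := (pk hpack hedge).near_home hϱ (U := U) (fun i _ u hu => hu)
    (Nat.lt_succ_iff.1 j.2) (y := te y) (by linarith) hy1
  refine ⟨?_, ?_, ?_⟩
  · intro u hu
    rw [mem_bl]
    refine h1 _ ?_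
    change ‖te u - zx z (j : ℕ)‖ ≤ ϱ
    rw [zx_fin, ← te_sub, ← sq_le_iff hr0]
    exact hu
  · intro j' n' hne u hu h4
    rw [mem_bl, te_sub] at h4
    refine h2 j' (Nat.lt_succ_iff.1 j'.2) _ (mem_PL n') ?_ (te u) ?_ h4
    · rcases hne with h | h
      · exact Or.inl fun h5 => h (Fin.ext h5)
      · exact Or.inr (te_per_ne.2 h)
    · change ‖te u - zx z (j' : ℕ)‖ ≤ ϱ
      rw [zx_fin, ← te_sub, ← sq_le_iff hr0]
      exact hu
  · intro e he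
    rw [mem_bl, link_eq]
    refine h3 e e.2 ?_
    rw [parx_fin]
    rcases he with h | h
    · left
      rw [← h, Fin.val_succ]
    · right
      rw [← h]

end Pool.Agent.MP7c5cdb.All
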