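import Pool.Agent.MP_7c5cdb.All.RDefs
import Pool.Agent.MP_7c5cdb.All.RowB1
import Pool.Agent.MP_7c5cdb.All.RowB2

set_option autoImplicit false
open MeasureTheory Set
open scoped ENNReal

namespace Pool.Agent.MP7c5cdb.All

namespace RL

open Tr Metric

variable {d : ℕ}

theorem volume_te {A : Set (EuclideanSpace ℝ (Fin d))} (hA : MeasurableSet A) :
    volume {v : Fin d → ℝ | te v ∈ A} = volume A :=
  (PiLp.volume_preserving_toLp (Fin d)).measure_preimage hA.nullMeasurableSet

/-- The volume of the unit ball. -/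
noncomputable def V1 (d : ℕ) : ℝ := (volume (ball (0 : EuclideanSpace ℝ (Fin d)) 1)).toReal

theorem zone_sub {a b : Fin d → ℝ} {δ : ℝ} (h0 : 0 ≤ δ) (h : sq (a - b) ≤ δ ^ 2) :
    zone a b ⊆ {v | te v ∈ closedBall (te b) (1 + δ) \ ball (te b) (1 - δ)} := by
  rw [sq_le_iff h0, te_sub] at h
  intro v hv
  rw [zone, Set.mem_symmDiff] at hv
  rw [mem_bl, mem_bl] at hv
  have h1 : ‖te v - te b‖ ≤ ‖te v - te a‖ + ‖te a - te b‖ := by
    have := norm_add_le (te v - te a) (te a - te b)
    rwa [sub_add_sub_cancel] at this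
  have h2 : ‖te v - te a‖ ≤ ‖te v - te b‖ + ‖te a - te b‖ := by
    have := norm_sub_le (te v - te b) (te a - te b)
    rwa [sub_sub_sub_cancel_right] at this
  refine ⟨?_, ?_⟩
  · rw [mem_closedBall, dist_eq_norm]
    rcases hv with ⟨h3, h4⟩ | ⟨h3, h4⟩ <;> linarith
  · rw [mem_ball, dist_eq_norm, not_lt]
    rcases hv with ⟨h3, h4⟩ | ⟨h3, h4⟩ <;> linarith

theorem zone_vol {a b : Fin d → ℝ} {δ : ℝ} (h0 : 0 ≤ δ) (h1 : δ < 1) (h : sq (a - b) ≤ δ ^ 2)
    {X : Set (Fin d → ℝ)} (hX : X ⊆ zone a b) :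
    (volume X).toReal ≤ ((1 + δ) ^ d - (1 - δ) ^ d) * V1 d := by
  have hm : MeasurableSet (closedBall (te b) (1 + δ) \ ball (te b) (1 - δ)) :=
    measurableSet_closedBall.diff measurableSet_ball
  have h2 : volume X ≤ volume (closedBall (te b) (1 + δ) \ ball (te b) (1 - δ)) := by
    rw [← volume_te hm]
    exact measure_mono (hX.trans (zone_sub h0 h))
  have hfin : volume (closedBall (te b) (1 + δ)) ≠ ⊤ := measure_closedBall_lt_top.ne
  have hsub : ball (te b) (1 - δ) ⊆ closedBall (te b) (1 + δ) :=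
    (ball_subset_ball (by linarith)).trans ball_subset_closedBall
  have h3 : (volume (closedBall (te b) (1 + δ) \ ball (te b) (1 - δ))).toReal =
      ((1 + δ) ^ d - (1 - δ) ^ d) * V1 d := by
    rw [measure_sdiff hsub measurableSet_ball.nullMeasurableSet
      (ne_top_of_le_ne_top hfin (measure_mono hsub)),
      ENNReal.toReal_sub_of_le (measure_mono hsub) hfin,
      Measure.addHaar_closedBall _ (te b) (by linarith),
      Measure.addHaar_ball_of_pos _ (te b) (r := 1 - δ) (by linarith),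
      ENNReal.toReal_mul, ENNReal.toReal_mul, ENNReal.toReal_ofReal (by positivity),
      ENNReal.toReal_ofReal (pow_nonneg (by linarith) _), finrank_euclideanSpace_fin, V1]
    ring
  rw [← h3]
  refine ENNReal.toReal_mono ?_ h2
  exact ne_top_of_le_ne_top hfin (measure_mono Set.sdiff_subset)

theorem eta_vol {η : ℝ} (hη : 0 < η) :
    0 < (volume {v : Fin d → ℝ | sq v < η ^ 2}).toReal := by
  have h1 : {v : Fin d → ℝ | sq v < η ^ 2} =
      {v | te v ∈ ball (0 : EuclideanSpace ℝ (Fin d)) η} := by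
    ext v
    change sq v < η ^ 2 ↔ te v ∈ ball (0 : EuclideanSpace ℝ (Fin d)) η
    rw [sq_lt_iff hη.le, mem_ball_zero_iff]
  rw [h1, volume_te measurableSet_ball]
  exact ENNReal.toReal_pos (measure_ball_pos volume _ hη).ne' measure_ball_lt_top.ne

theorem exists_delta (d : ℕ) {c : ℝ} (hc : 0 < c) :
    ∃ δ : ℝ, 0 < δ ∧ δ < 1 ∧ ∀ x : ℝ, 0 ≤ x → x ≤ δ →
      ((1 + x) ^ d - (1 - x) ^ d) * V1 d ≤ c := by
  have h1 : Continuous fun x : ℝ => ((1 + x) ^ d - (1 - x) ^ d) * V1 d := by fun_prop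
  have h2 := h1.tendsto 0
  simp only [add_zero, sub_zero, one_pow, sub_self, zero_mul] at h2
  obtain ⟨δ, hδ, h3⟩ := Metric.eventually_nhds_iff.1 (h2.eventually (gt_mem_nhds hc))
  refine ⟨min (δ / 2) (1 / 2), by positivity, (min_le_right _ _).trans_lt (by norm_num),
    fun x hx hx' => (h3 ?_).le⟩
  rw [Real.dist_eq, sub_zero, abs_of_nonneg hx]
  have := hx'.trans (min_le_left _ _)
  linarith

theorem zone_of {a b c y : Fin d → ℝ} (h1 : y ∈ zone a c) (h2 : y ∉ zone b c) :
    y ∈ zone a b := by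
  rw [zone, Set.mem_symmDiff] at *
  tauto

theorem not_zone {a b y : Fin d → ℝ} : y ∉ zone a b ↔ (y ∈ bl a ↔ y ∈ bl b) := by
  rw [zone, Set.mem_symmDiff]
  tauto

end RL

open Tr RL in
/-- ROW RL. Good layouts exist: roots and tree from the packing, net `f`, groups
`(j, l, i)`, `i = 1..K`, `u = z j + (i/K) f l`, ordered by `j`, `l`, `i`; `w e` = midpoint of the
edge `e`; `K` large. -/
theorem exists_rlay (d : ℕ) : ∃ Y : RLay d, Y.Good := by
  obtain ⟨k, z, par, R, hpar, hedge, hpack, hR0, hR, hcov⟩ := exists_packing d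
  obtain ⟨t, ϱ, Λ, f, hRt, ht, htϱ, hϱ, hf, hF1, hF2⟩ := exists_net d R hR
  have hϱ0 : 1 / 4 < ϱ := by linarith
  have hη : 0 < 1 / 2 - ϱ := by linarith
  have hV := eta_vol (d := d) hη
  obtain ⟨δ, hδ, hδ1, hδv⟩ := exists_delta d (c := 1 / 4 *
    (volume {v : Fin d → ℝ | sq v < (1 / 2 - ϱ) ^ 2}).toReal) (by positivity)
  obtain ⟨K0, hK0⟩ := exists_nat_gt (1 / δ)
  set K := K0 + 1 with hKdef
  have hKpos : (0 : ℝ) < K := by
    rw [hKdef]
    push_cast
    positivity
  have hKδ : ϱ / K ≤ δ := by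
    rw [div_le_iff₀ hKpos]
    have h1 : 1 < K0 * δ := (div_lt_iff₀ hδ).1 hK0
    have h2 : (K0 : ℝ) ≤ K := by
      rw [hKdef]
      push_cast
      linarith
    nlinarith
  -- the groups
  let e1 : Fin ((k + 1) * (Λ + 1) * K) ≃ Fin ((k + 1) * (Λ + 1)) × Fin K := finProdFinEquiv.symm
  let e2 : Fin ((k + 1) * (Λ + 1)) ≃ Fin (k + 1) × Fin (Λ + 1) := finProdFinEquiv.symm
  let cj : Fin ((k + 1) * (Λ + 1) * K) → Fin (k + 1) := fun g => (e2 (e1 g).1).1
  let cl : Fin ((k + 1) * (Λ + 1) * K) → Fin (Λ + 1) := fun g => (e2 (e1 g).1).2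
  let ci : Fin ((k + 1) * (Λ + 1) * K) → Fin K := fun g => (e1 g).2
  let u : Fin ((k + 1) * (Λ + 1) * K) → Fin d → ℝ :=
    fun g => z (cj g) + ((((ci g : ℕ) : ℝ) + 1) / K) • f (cl g)
  have hfrac : ∀ g, 0 ≤ (((ci g : ℕ) : ℝ) + 1) / K ∧ (((ci g : ℕ) : ℝ) + 1) / K ≤ 1 := by
    intro g
    refine ⟨by positivity, ?_⟩
    rw [div_le_one hKpos]
    have : (ci g : ℕ) + 1 ≤ K := (ci g).2
    exact_mod_cast this
  have hte : ∀ l, ‖te (f l)‖ ≤ ϱ := fun l => (sq_le_iff (by linarith)).1 (hf l)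
  have hu : ∀ g, sq (u g - z (cj g)) ≤ ϱ ^ 2 := by
    intro g
    have h1 : u g - z (cj g) = ((((ci g : ℕ) : ℝ) + 1) / K) • f (cl g) := by
      simp only [u]
      abel
    rw [h1, sq_le_iff (by linarith), te_smul, norm_smul, Real.norm_of_nonneg (hfrac g).1]
    calc (((ci g : ℕ) : ℝ) + 1) / K * ‖te (f (cl g))‖ ≤ 1 * ϱ :=
          mul_le_mul (hfrac g).2 (hte _) (norm_nonneg _) zero_le_one
      _ = ϱ := one_mul _
  let Y : RLay d :=
    { k := k
      Γ := (k + 1) * (Λ + 1) * K
      z := z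
      par := par
      comp := cj
      u := u
      w := fun e i => (z e.succ i + z (par e) i) / 2
      eta := 1 / 2 - ϱ }
  -- positions of the components
  let P : Fin (k + 1) → Set (Fin d → ℝ) := fun j => {v | v = z j ∨ ∃ g, cj g = j ∧ v = u g}
  have hP : ∀ j, ∀ v ∈ P j, sq (v - z j) ≤ ϱ ^ 2 := by
    rintro j v (rfl | ⟨g, rfl, rfl⟩)
    · rw [sub_self]
      have : sq (0 : Fin d → ℝ) = 0 := by simp [sq]
      rw [this]
      positivity
    · exact hu g
  have hPf : ∀ j l, z j + f l ∈ P j := by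
    intro j l
    right
    refine ⟨e1.symm (e2.symm (j, l), ⟨K0, by omega⟩), ?_, ?_⟩
    · simp only [cj, Equiv.apply_symm_apply]
    · simp only [u, cj, cl, ci, Equiv.apply_symm_apply]
      have : ((K0 : ℝ) + 1) / K = 1 := by
        rw [hKdef]
        push_cast
        exact div_self (by positivity)
      rw [this, one_smul]
  refine ⟨Y, ?_⟩
  refine
    { par_le := hpar
      close := ?_
      eta_pos := hη
      vol_small := ?_
      uncut := ?_
      nbhd := ?_ }
  · intro g
    refine (hu g).trans ?_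
    nlinarith
  · intro g
    refine le_trans ?_ (hδv (ϱ / K) (by positivity) hKδ)
    by_cases hi : (ci g : ℕ) = 0
    · refine zone_vol (a := u g) (b := z (cj g)) (by positivity) (hKδ.trans_lt hδ1) ?_ ?_
      · have h1 : u g - z (cj g) = (1 / (K : ℝ)) • f (cl g) := by
          simp only [u, hi]
          push_cast
          rw [zero_add]
          abel
        rw [h1, sq_le_iff (by positivity), te_smul, norm_smul,
          Real.norm_of_nonneg (by positivity), div_mul_eq_mul_div, one_mul]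
        exact div_le_div_of_nonneg_right (hte _) hKpos.le
      · exact fun y hy => hy.1
    · obtain ⟨i, hi'⟩ : ∃ i, (ci g : ℕ) = i + 1 := ⟨(ci g : ℕ) - 1, by omega⟩
      have hiK : i < K := by
        have := (ci g).2
        omega
      set g' := e1.symm ((e1 g).1, ⟨i, hiK⟩) with hg'
      have hg1 : cj g' = cj g := by
        simp only [cj, hg', Equiv.apply_symm_apply]
      have hg2 : cl g' = cl g := by
        simp only [cl, hg', Equiv.apply_symm_apply]
      have hg3 : (ci g' : ℕ) = i := by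
        simp only [ci, hg', Equiv.apply_symm_apply]
      have hlt : g' < g := by
        have h1 : g = finProdFinEquiv ((e1 g).1, ci g) := by
          change g = e1.symm ((e1 g).1, (e1 g).2)
          rw [Prod.mk.eta, Equiv.symm_apply_apply]
        have h2 : g' = finProdFinEquiv ((e1 g).1, ⟨i, hiK⟩) := rfl
        rw [Fin.lt_def]
        have h3 := congrArg Fin.val h1
        have h4 := congrArg Fin.val h2
        rw [finProdFinEquiv_apply_val] at h3 h4
        simp only at h3 h4
        omega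
      refine zone_vol (a := u g) (b := u g') (by positivity) (hKδ.trans_lt hδ1) ?_ ?_
      · have h1 : u g - u g' = (1 / (K : ℝ)) • f (cl g) := by
          simp only [u]
          rw [hg1, hg2, hg3, hi']
          push_cast
          rw [add_sub_add_left_eq_sub, ← sub_smul]
          congr 1
          rw [← sub_div]
          congr 1
          ring
        rw [h1, sq_le_iff (by positivity), te_smul, norm_smul,
          Real.norm_of_nonneg (by positivity), div_mul_eq_mul_div, one_mul]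
        exact div_le_div_of_nonneg_right (hte _) hKpos.le
      · intro y hy
        refine zone_of hy.1 fun h1 => hy.2 g' hlt ⟨0, ?_⟩
        rw [per_zero, sub_zero]
        change y ∈ zone (u g') (z (cj g'))
        rw [hg1]
        exact h1
  · intro y hy
    have hy' : ∀ (j : Fin (k + 1)) (n : Fin d → ℤ), ∀ v ∈ P j,
        (y - per n ∈ bl v ↔ y - per n ∈ bl (z j)) := by
      rintro j n v (rfl | ⟨g, rfl, rfl⟩)
      · exact Iff.rfl
      · exact not_zone.1 fun h => hy g ⟨n, h⟩
    obtain ⟨j, n, h1, h2⟩ := uncut_facts z par R t ϱ hpack hedge hcov hR0 hRt ht htϱ hϱ f hf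
      hF1 hF2 P hP hPf y (fun j n v hv v' hv' => (hy' j n v hv).trans (hy' j n v' hv').symm)
    refine ⟨j, n, ?_, ?_, h2⟩
    · intro g n'
      exact h1 (cj g) n' (u g) (Or.inr ⟨g, rfl, rfl⟩)
    · intro j' n'
      exact h1 j' n' (z j') (Or.inl rfl)
  · intro j y hy
    obtain ⟨h1, h2, h3⟩ := nbhd_facts z par ϱ hpack hedge hϱ0 hϱ j y hy
    have hz : ∀ j', sq (z j' - z j') ≤ ϱ ^ 2 := by
      intro j'
      rw [sub_self]
      have : sq (0 : Fin d → ℝ) = 0 := by simp [sq]
      rw [this]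
      positivity
    refine ⟨?_, h1 _ (hz j), h3⟩
    rintro g ⟨n, hn⟩
    revert hn
    rw [imp_false, not_zone]
    change y - per n ∈ bl (u g) ↔ y - per n ∈ bl (z (cj g))
    by_cases hc : cj g = j ∧ n = 0
    · obtain ⟨hc1, rfl⟩ := hc
      rw [per_zero, sub_zero, hc1]
      have h4 := hu g
      rw [hc1] at h4
      exact ⟨fun _ => h1 _ (hz j), fun _ => h1 _ h4⟩
    · have hc' : cj g ≠ j ∨ n ≠ 0 := by
        by_contra h4
        push Not at h4
        exact hc h4
      exact ⟨fun h => absurd h (h2 _ n hc' _ (hu g)), fun h => absurd h (h2 _ n hc' _ (hz _))⟩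

end Pool.Agent.MP7c5cdb.All
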