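import Pool.Agent.MP_7c5cdb.All.RPat

set_option autoImplicit false
open MeasureTheory Set
open scoped ENNReal

namespace Pool.Agent.MP7c5cdb.All.RV

open Pool.Agent.Helper7.GPat

variable {d : ℕ}

lemma per_zero : per (0 : Fin d → ℤ) = 0 := by
  funext i
  simp [per]

lemma per_neg (n : Fin d → ℤ) : per (-n) = -per n := by
  funext i
  simp [per]

lemma per_add (n n' : Fin d → ℤ) : per (n + n') = per n + per n' := by
  funext i
  simp [per, mul_add]

lemma sub_per_neg (y : Fin d → ℝ) (n : Fin d → ℤ) : y - per (-n) = y + per n := by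
  rw [per_neg, sub_neg_eq_add]

/-- The Euclidean triangle inequality in the form needed here. -/
lemma per_eq_zero_of_near {y u u' : Fin d → ℝ} {n : Fin d → ℤ} (h : sq (y - u) < 1)
    (h' : sq (y + per n - u') < 1) (hu : sq (u - u') ≤ 1) : n = 0 := by
  by_contra hn
  obtain ⟨i, hi⟩ : ∃ i, n i ≠ 0 := by
    by_contra hcon
    push Not at hcon
    exact hn (funext hcon)
  have hs : ∀ v : Fin d → ℝ, v i ^ 2 ≤ sq v := fun v =>
    Finset.single_le_sum (f := fun i => v i ^ 2) (fun _ _ => sq_nonneg _) (Finset.mem_univ i)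
  have h1 := lt_of_le_of_lt (hs _) h
  have h2 := lt_of_le_of_lt (hs _) h'
  have h3 := le_trans (hs _) hu
  simp only [Pi.sub_apply, Pi.add_apply] at h1 h2 h3
  have a1 : |y i - u i| < 1 := by
    rw [← sq_lt_one_iff_abs_lt_one]; exact h1
  have a2 : |y i + per n i - u' i| < 1 := by
    rw [← sq_lt_one_iff_abs_lt_one]; exact h2
  have a3 : |u i - u' i| ≤ 1 := by
    rw [← sq_le_one_iff_abs_le_one]; exact h3
  have h4 : (4 : ℝ) ≤ |per n i| := by
    have : (1 : ℝ) ≤ |((n i : ℤ) : ℝ)| := by
      rw [← Int.cast_abs]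
      exact_mod_cast Int.one_le_abs hi
    show (4 : ℝ) ≤ |4 * ((n i : ℤ) : ℝ)|
    rw [abs_mul, abs_of_pos (by norm_num : (0 : ℝ) < 4)]
    linarith
  have h5 : |per n i| ≤ |y i + per n i - u' i| + |y i - u i| + |u i - u' i| := by
    have : per n i = (y i + per n i - u' i) - (y i - u i) - (u i - u' i) := by ring
    calc |per n i| = |(y i + per n i - u' i) - (y i - u i) - (u i - u' i)| := by rw [← this]
      _ ≤ |(y i + per n i - u' i) - (y i - u i)| + |u i - u' i| := abs_sub _ _
      _ ≤ _ := by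
          have := abs_sub (y i + per n i - u' i) (y i - u i)
          linarith
  linarith

/-- A position is seen through one translate only. -/
lemma per_unique {y u : Fin d → ℝ} {g g' : Fin d → ℤ} (h : y + per g ∈ bl u)
    (h' : y + per g' ∈ bl u) : g = g' := by
  have h1 : sq (y + per g + per (g' - g) - u) < 1 := by
    have : y + per g + per (g' - g) = y + per g' := by
      rw [add_assoc, ← per_add]
      congr 2
      abel
    rw [this]
    exact h'
  have h2 := per_eq_zero_of_near (y := y + per g) (u := u) (u' := u) (n := g' - g) h h1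
    (by simp [sq])
  exact (sub_eq_zero.1 h2).symm

/-- Uncut points see exactly one component and nothing of its translates. -/
lemma top_facts {Y : RLay d} (hY : Y.Good) {y : Fin d → ℝ} {j0 : Fin (Y.k + 1)}
    (hy : y ∈ Y.N j0) :
    (∀ j' n', y + per n' ∈ bl (Y.z j') ↔ j' = j0 ∧ n' = 0) ∧
    (∀ e n', y + per n' ∈ bl (Y.w e) → n' = 0) := by
  obtain ⟨j, n, -, h2, h3⟩ := hY.uncut y hy.1
  have h0 : y - per (0 : Fin d → ℤ) ∈ bl (Y.z j0) := by
    rw [per_zero, sub_zero]
    exact hy.2
  obtain ⟨hj, hn⟩ := (h2 j0 0).1 h0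
  subst hj
  subst hn
  refine ⟨fun j' n' => ?_, fun e n' h => ?_⟩
  · rw [← sub_per_neg, h2, neg_eq_zero]
  · rw [← sub_per_neg] at h
    exact neg_eq_zero.1 (h3 e (-n') h).1

/-- Outside of the periodised zone the two positions look alike. -/
lemma out_iff {Y : RLay d} {y : Fin d → ℝ} {g : Fin Y.Γ} (h : y ∉ Y.SP g) (n : Fin d → ℤ) :
    (y + per n ∈ bl (Y.u g) ↔ y + per n ∈ bl (Y.z (Y.comp g))) := by
  have h1 : y + per n ∉ zone (Y.u g) (Y.z (Y.comp g)) := by
    intro h2
    apply h
    refine ⟨-n, ?_⟩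
    rw [sub_per_neg]
    exact h2
  unfold zone at h1
  rw [Set.mem_symmDiff] at h1
  tauto

/-- The label of a row. -/
lemma exists_lab {Y : RLay d} (hY : Y.Good) {y : Fin d → ℝ}
    (hy : (∃ g, y ∈ Y.X g) ∨ ∃ j, y ∈ Y.N j) :
    ∃ s : Fin Y.Γ ⊕ Fin (Y.k + 1), (∀ g, s = .inl g ↔ y ∈ Y.X g) ∧
      (∀ j, s = .inr j ↔ y ∈ Y.N j) := by
  rcases hy with ⟨g, hg⟩ | ⟨j, hj⟩
  · refine ⟨.inl g, fun g' => ?_, fun j => ?_⟩
    · constructor
      · intro h
        rw [← Sum.inl.inj h]
        exact hg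
      · intro h
        by_contra hne
        have hne' : g ≠ g' := fun he => hne (by rw [he])
        exact Set.disjoint_left.1 (rX_disjoint hY hne') hg h
    · constructor
      · intro h
        cases h
      · intro h
        exact (Set.disjoint_left.1 (rX_N_disjoint hY g j) hg h).elim
  · refine ⟨.inr j, fun g => ?_, fun j' => ?_⟩
    · constructor
      · intro h
        cases h
      · intro h
        exact (Set.disjoint_left.1 (rX_N_disjoint hY g j) h hj).elim
    · constructor
      · intro h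
        rw [← Sum.inr.inj h]
        exact hj
      · intro h
        by_contra hne
        have hne' : j ≠ j' := fun he => hne (by rw [he])
        exact Set.disjoint_left.1 (rN_disjoint hY hne') hj h

/-- What a point sees at a position. -/
noncomputable def seen (M : ℕ) (φ : (Fin d → ℤ) →+ ℤ) (y u : Fin d → ℝ) (p : Fin d → ℤ) :
    Option ((Fin d → ℤ) × ℤ) :=
  open Classical in
  if h : ∃ g : Fin d → ℤ, y + per g ∈ bl u then some (h.choose, φ (p + (M : ℤ) • h.choose))
  else none

lemma seen_eq_some {M : ℕ} {φ : (Fin d → ℤ) →+ ℤ} {y u : Fin d → ℝ} {p : Fin d → ℤ}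
    {g : Fin d → ℤ} {m : ℤ} : seen M φ y u p = some (g, m) ↔
      (y + per g ∈ bl u ∧ m = φ (p + (M : ℤ) • g)) := by
  classical
  unfold seen
  constructor
  · intro h
    split_ifs at h with h1
    rw [Option.some.injEq, Prod.mk.injEq] at h
    obtain ⟨h2, h3⟩ := h
    rw [h2] at h3
    exact ⟨h2 ▸ h1.choose_spec, h3.symm⟩
  · rintro ⟨h1, h2⟩
    have h3 : ∃ g : Fin d → ℤ, y + per g ∈ bl u := ⟨g, h1⟩
    rw [dif_pos h3]
    have h4 : h3.choose = g := per_unique h3.choose_spec h1
    rw [h4, h2]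

lemma seen_eq_none {M : ℕ} {φ : (Fin d → ℤ) →+ ℤ} {y u : Fin d → ℝ} {p : Fin d → ℤ}
    (h : ∀ g, y + per g ∉ bl u) : seen M φ y u p = none := by
  classical
  unfold seen
  rw [dif_neg]
  push Not
  exact h

lemma seen_congr {M : ℕ} {φ : (Fin d → ℤ) →+ ℤ} {y u u' : Fin d → ℝ} {p : Fin d → ℤ}
    (h : ∀ g, y + per g ∈ bl u ↔ y + per g ∈ bl u') : seen M φ y u p = seen M φ y u' p := by
  by_cases hex : ∃ g, y + per g ∈ bl u
  · obtain ⟨g, hg⟩ := hex
    rw [seen_eq_some.2 ⟨hg, rfl⟩, seen_eq_some.2 ⟨(h g).1 hg, rfl⟩]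
  · push Not at hex
    rw [seen_eq_none hex, seen_eq_none (fun g hg => hex g ((h g).2 hg))]

lemma seen_zero {M : ℕ} {φ : (Fin d → ℤ) →+ ℤ} {y u : Fin d → ℝ} {p : Fin d → ℤ}
    (h : y ∈ bl u) : seen M φ y u p = some (0, φ p) := by
  rw [seen_eq_some]
  refine ⟨?_, ?_⟩
  · rw [per_zero, add_zero]
    exact h
  · rw [smul_zero, add_zero]

/-- ROW RV. The pattern from the geometry. -/
theorem exists_descr {Y : RLay d} (hY : Y.Good) {n lam : Fin Y.Γ → ℕ}
    {mu : Fin (Y.k + 1) → ℕ} (h : Y.Num n lam mu) (l : ℕ) {M : ℕ} (hM : 0 < M)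
    (x : Fin d → ℝ) (φ : (Fin d → ℤ) →+ ℤ) {rep : RowT d M → Fin d → ℤ} (hr : Rep Y M x rep) :
    ∃ T, Descr h l M x φ rep T := by
  classical
  choose lab hX hN using fun r => exists_lab hY (hr.mem r)
  refine ⟨{ see := fun r P => seen M φ (pt M x (rep r)) (Y.posn n lam mu h l P) (rep r)
            lab := lab
            num := fun r => φ (rep r)
            grp_self := ?_
            grp_lt := ?_
            top_grp := ?_
            top_root := ?_
            top_link := ?_ }, ?_⟩
  · -- grp_self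
    intro r g hg
    have h1 : pt M x (rep r) ∈ Y.X g := (hX r g).1 hg
    have h2 : pt M x (rep r) ∈ zone (Y.u g) (Y.z (Y.comp g)) := h1.1
    unfold zone at h2
    rw [Set.mem_symmDiff] at h2
    rcases h2 with ⟨ha, hb⟩ | ⟨ha, hb⟩
    · left
      refine ⟨seen_zero ha, seen_eq_none fun g' hg' => ?_⟩
      have h3 : g' = 0 := per_eq_zero_of_near ha hg' ((hY.close g).trans (by norm_num))
      rw [h3, per_zero, add_zero] at hg'
      exact hb hg'
    · right
      refine ⟨seen_eq_none fun g' hg' => ?_, seen_zero ha⟩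
      have hc : sq (Y.z (Y.comp g) - Y.u g) ≤ 1 := by
        have : sq (Y.z (Y.comp g) - Y.u g) = sq (Y.u g - Y.z (Y.comp g)) := by
          unfold sq
          refine Finset.sum_congr rfl fun i _ => ?_
          simp only [Pi.sub_apply]
          ring
        rw [this]
        exact (hY.close g).trans (by norm_num)
      have h3 : g' = 0 := per_eq_zero_of_near ha hg' hc
      rw [h3] at hg'
      have hg'' : pt M x (rep r) + per 0 ∈ bl (Y.u g) := hg'
      rw [per_zero, add_zero] at hg''
      exact hb hg''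
  · -- grp_lt
    intro r g g' hg hlt
    exact seen_congr (out_iff (((hX r g).1 hg).2 g' hlt))
  · -- top_grp
    intro r j g' hj
    exact seen_congr (out_iff (((hN r j).1 hj).1 g'))
  · -- top_root
    intro r j j' hj
    obtain ⟨h1, -⟩ := top_facts hY ((hN r j).1 hj)
    by_cases hjj : j' = j
    · rw [if_pos hjj]
      refine seen_zero ?_
      have := (h1 j' 0).2 ⟨hjj, rfl⟩
      rw [per_zero, add_zero] at this
      exact this
    · rw [if_neg hjj]
      refine seen_eq_none fun g hg => hjj ((h1 j' g).1 hg).1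
  · -- top_link
    intro r j e hj
    obtain ⟨-, h1⟩ := top_facts hY ((hN r j).1 hj)
    by_cases h0 : pt M x (rep r) ∈ bl (Y.w e)
    · right
      exact seen_zero h0
    · left
      refine seen_eq_none fun g hg => h0 ?_
      have h2 := h1 e g hg
      rw [h2] at hg
      have hg' : pt M x (rep r) + per 0 ∈ bl (Y.w e) := hg
      rw [per_zero, add_zero] at hg'
      exact hg'
  · exact ⟨fun r P g m => seen_eq_some, fun r => rfl, hX, hN⟩

end Pool.Agent.MP7c5cdb.All.RV
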