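import Pool.Agent.MP_7c5cdb.All.RPat

/-!
# Row RW: the hypotheses of `exists_good` from the counts
-/

set_option autoImplicit false
open MeasureTheory Set
open scoped ENNReal

namespace Pool.Agent.MP7c5cdb.All

open Pool.Agent.Helper7.GPat

variable {d : ℕ}

namespace RW

/-- The component served by a link column. -/
def own {k : ℕ} (par : Fin k → Fin (k + 1)) (el : ℕ) (fl : Fin k → ℤ)
    (c : Fin k × Fin (2 * el)) : Fin (k + 1) :=
  if ((c.2 : ℕ) : ℤ) < (el : ℤ) + fl c.1 then c.1.succ else par c.1

theorem own_or {k : ℕ} (par : Fin k → Fin (k + 1)) (el : ℕ) (fl : Fin k → ℤ)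
    (c : Fin k × Fin (2 * el)) : c.1.succ = own par el fl c ∨ par c.1 = own par el fl c := by
  unfold own
  split_ifs
  · exact Or.inl rfl
  · exact Or.inr rfl

/-- The number of the link columns served by `j`. -/
theorem card_own {k : ℕ} (par : Fin k → Fin (k + 1)) (hpar : ∀ e, (par e : ℕ) ≤ (e : ℕ))
    (el : ℕ) (fl : Fin k → ℤ) (hfl : ∀ e, |fl e| ≤ (el : ℤ)) (j : Fin (k + 1)) :
    (((Finset.univ.filter fun c : Fin k × Fin (2 * el) => own par el fl c = j).card : ℕ) : ℤ) =
      ∑ e : Fin k, ((if e.succ = j then (el : ℤ) + fl e else 0) +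
        (if par e = j then (el : ℤ) - fl e else 0)) := by
  have h1 : (Finset.univ.filter fun c : Fin k × Fin (2 * el) => own par el fl c = j).card =
      ∑ e : Fin k, (Finset.univ.filter fun b : Fin (2 * el) => own par el fl (e, b) = j).card := by
    rw [Finset.card_filter, Fintype.sum_prod_type]
    refine Finset.sum_congr rfl fun e _ => ?_
    rw [Finset.card_filter]
  rw [h1]
  push_cast
  refine Finset.sum_congr rfl fun e _ => ?_
  have hne : e.succ ≠ par e := by
    intro h
    have h2 := congrArg Fin.val h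
    have h3 := hpar e
    rw [Fin.val_succ] at h2
    omega
  obtain ⟨hl1, hl2⟩ := abs_le.1 (hfl e)
  obtain ⟨t, ht⟩ : ∃ t : ℕ, (t : ℤ) = (el : ℤ) + fl e := ⟨((el : ℤ) + fl e).toNat, by omega⟩
  have ht2 : t ≤ 2 * el := by omega
  have hc1 : (Finset.univ.filter fun b : Fin (2 * el) => ((b : ℕ) : ℤ) < (el : ℤ) + fl e).card =
      t := by
    have h2 : (Finset.univ.filter fun b : Fin (2 * el) => ((b : ℕ) : ℤ) < (el : ℤ) + fl e).image
        Fin.val = Finset.range t := by
      ext i
      rw [Finset.mem_image, Finset.mem_range]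
      constructor
      · rintro ⟨b, hb, rfl⟩
        have := (Finset.mem_filter.1 hb).2
        omega
      · intro hi
        refine ⟨⟨i, by omega⟩, Finset.mem_filter.2 ⟨Finset.mem_univ _, ?_⟩, rfl⟩
        show ((i : ℕ) : ℤ) < _
        omega
    have h3 := congrArg Finset.card h2
    rwa [Finset.card_image_of_injective _ Fin.val_injective, Finset.card_range] at h3
  have hc2 : (Finset.univ.filter fun b : Fin (2 * el) =>
      ¬ ((b : ℕ) : ℤ) < (el : ℤ) + fl e).card = 2 * el - t := by
    have h2 := Finset.card_filter_add_card_filter_not (s := (Finset.univ : Finset (Fin (2 * el))))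
      (fun b : Fin (2 * el) => ((b : ℕ) : ℤ) < (el : ℤ) + fl e)
    rw [hc1, Finset.card_univ, Fintype.card_fin] at h2
    omega
  by_cases h2 : e.succ = j
  · have h3 : par e ≠ j := fun h => hne (h2.trans h.symm)
    rw [if_pos h2, if_neg h3, add_zero, ← ht]
    congr 1
    rw [← hc1]
    congr 1
    refine Finset.filter_congr fun b _ => ?_
    unfold own
    constructor
    · intro h
      by_contra hb
      rw [if_neg hb] at h
      exact h3 h
    · intro h
      rw [if_pos h]
      exact h2
  · rw [if_neg h2, zero_add]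
    by_cases h3 : par e = j
    · rw [if_pos h3]
      have h4 : (Finset.univ.filter fun b : Fin (2 * el) => own par el fl (e, b) = j).card =
          2 * el - t := by
        rw [← hc2]
        congr 1
        refine Finset.filter_congr fun b _ => ?_
        unfold own
        constructor
        · intro h hb
          rw [if_pos hb] at h
          exact h2 h
        · intro h
          rw [if_neg h]
          exact h3
      rw [h4]
      omega
    · rw [if_neg h3]
      have h4 : (Finset.univ.filter fun b : Fin (2 * el) => own par el fl (e, b) = j) = ∅ := by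
        rw [Finset.filter_eq_empty_iff]
        intro b _
        unfold own
        split_ifs
        · exact h2
        · exact h3
      rw [h4]
      simp

theorem per_zero : per (0 : Fin d → ℤ) = 0 := by
  funext i
  simp [per]

/-- The number of the losers of a component. -/
theorem card_losers {D : Des} {G : Type} [AddCommGroup G] {Row : Type} [Fintype Row]
    [DecidableEq Row] (T : Pool.Agent.Helper7.GPat.Pat D G Row) (hn1 : ∀ g, D.lam g ≤ D.n g)
    (j : Fin D.k) :
    (Finset.univ.filter fun c : D.Grp => T.Loser c ∧ D.comp c.1 = j).card =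
      ∑ g : Fin D.Γ, if D.comp g = j then D.lam g - T.win g else 0 := by
  have h5 : (Finset.univ.filter fun c : D.Grp => T.Loser c ∧ D.comp c.1 = j).card =
      ∑ g : Fin D.Γ, (Finset.univ.filter fun a : Fin (D.n g) =>
        T.Loser ⟨g, a⟩ ∧ D.comp g = j).card := by
    rw [Finset.card_filter, Fintype.sum_sigma]
    refine Finset.sum_congr rfl fun g _ => ?_
    rw [Finset.card_filter]
  rw [h5]
  refine Finset.sum_congr rfl fun g _ => ?_
  by_cases hg : D.comp g = j
  · rw [if_pos hg, ← card_loser T hn1 g]
    congr 1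
    refine Finset.filter_congr fun a _ => ?_
    exact ⟨fun h => h.1, fun h => ⟨h, hg⟩⟩
  · rw [if_neg hg, Finset.card_eq_zero, Finset.filter_eq_empty_iff]
    intro a _ h7
    exact hg h7.2

/-- The count of the rows of a component, with the losers counted. -/
theorem last {D : Des} {G : Type} [AddCommGroup G] {Row : Type} [Fintype Row]
    [DecidableEq Row] (T : Pool.Agent.Helper7.GPat.Pat D G Row) (hn1 : ∀ g, D.lam g ≤ D.n g)
    (E : Type) [Fintype E] (ow : E → Fin D.k) (j : Fin D.k) (N : ℕ)
    (key : N = D.μ j + (∑ g : Fin D.Γ, if D.comp g = j then D.lam g - T.win g else 0) +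
      (Finset.univ.filter fun c : E => ow c = j).card) :
    N = D.μ j + (Finset.univ.filter fun c : D.Grp => T.Loser c ∧ D.comp c.1 = j).card +
      (Finset.univ.filter fun c : E => ow c = j).card := by
  rw [card_losers T hn1 j]
  exact key

end RW

open RW in
/-- ROW RW. The hypotheses of `exists_good` from the counts. -/
theorem exists_good_of_cnt {Y : RLay d} (hY : Y.Good) {n lam : Fin Y.Γ → ℕ}
    {mu : Fin (Y.k + 1) → ℕ} (h : Y.Num n lam mu) {el M : ℕ} (_hM : 0 < M)
    (x : Fin d → ℝ) (φ : (Fin d → ℤ) →+ ℤ) {rep : RowT d M → Fin d → ℤ} (hr : Rep Y M x rep)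
    {fl : Fin Y.k → ℤ} (hc : Cnt Y M n lam mu el x fl)
    {T : Pool.Agent.Helper7.GPat.Pat (Y.des n lam mu h (2 * el)) (Fin d → ℤ) (RowT d M)}
    (hT : Descr h (2 * el) M x φ rep T)
    (hφ : ∀ r r', φ (rep r) = φ (rep r') → rep r = rep r') :
    ∃ σ : (Y.des n lam mu h (2 * el)).Col ≃ RowT d M, Pool.Agent.Helper7.GPat.Good T σ := by
  classical
  have hcnt : ∀ g : Fin Y.Γ, T.cnt g = (rowsOf M x (Y.X g)).ncard := by
    intro g
    rw [← hr.card_X g]
    unfold Pool.Agent.Helper7.GPat.Pat.cnt
    congr 1
    refine Finset.filter_congr fun r _ => ?_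
    exact hT.labX r g
  have hwin : ∀ g : Fin Y.Γ, lam g - T.win g = n g - (rowsOf M x (Y.X g)).ncard := by
    intro g
    have h1 : T.win g = T.cnt g - (n g - lam g) := rfl
    have h2 := hc.grp g
    have h3 := h.lam_le g
    rw [h1, hcnt]
    omega
  have key : ∀ j : Fin (Y.k + 1), (rowsOf M x (Y.N j)).ncard = mu j +
      (∑ g : Fin Y.Γ, (if Y.comp g = j then lam g - T.win g else 0)) +
      (Finset.univ.filter fun c : Fin Y.k × Fin (2 * el) => own Y.par el fl c = j).card := by
    intro j
    have h2 := hc.top j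
    have h3 := card_own Y.par hY.par_le el fl hc.fl_le j
    have h6 : ((∑ g : Fin Y.Γ, (if Y.comp g = j then lam g - T.win g else 0) : ℕ) : ℤ) =
        ∑ g, if Y.comp g = j then ((n g : ℤ) - ((rowsOf M x (Y.X g)).ncard : ℤ)) else 0 := by
      push_cast
      refine Finset.sum_congr rfl fun g _ => ?_
      split_ifs with hg
      · have h8 := (hc.grp g).1
        have h9 : ((lam g - T.win g : ℕ) : ℤ) =
            ((n g - (rowsOf M x (Y.X g)).ncard : ℕ) : ℤ) := congrArg Nat.cast (hwin g)
        exact h9.trans (Int.ofNat_sub h8)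
      · rfl
    rw [← h3, ← h6] at h2
    exact_mod_cast h2
  have hn1 : ∀ g, (Y.des n lam mu h (2 * el)).lam g ≤ (Y.des n lam mu h (2 * el)).n g := h.lam_le
  refine exists_good T hn1 ?_ ?_ ?_ (own Y.par el fl)
    (fun j => Finset.univ.filter fun r => pt M x (rep r) ∈ Y.nb j) ?_ ?_ ?_
  · intro g
    have h1 : n g - lam g ≤ (rowsOf M x (Y.X g)).ncard := by
      have := (hc.grp g).2
      omega
    exact h1.trans (le_of_eq (hcnt g).symm)
  · intro g
    exact (le_of_eq (hcnt g)).trans (hc.grp g).1
  · intro r r' j j' _ _ hrr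
    rw [hT.num, hT.num] at hrr
    exact hr.inj (hφ r r' hrr)
  · intro j r hrj
    rw [Finset.mem_filter] at hrj
    obtain ⟨h1, h2, h3⟩ := hY.nbhd j _ hrj.2
    refine ⟨(hT.labN r j).2 ⟨h1, h2⟩, fun c hcj => ?_⟩
    rw [hT.see]
    refine ⟨?_, ?_⟩
    · rw [per_zero, add_zero]
      refine h3 c.1 ?_
      have h4 := own_or Y.par el fl c
      rw [hcj] at h4
      exact h4
    · rw [hT.num, smul_zero, add_zero]
  · intro j
    have h1 : (Finset.univ.filter fun r => pt M x (rep r) ∈ Y.nb j).card =
        (rowsOf M x (Y.nb j)).ncard := hr.card_nb hY j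
    rw [h1]
    refine le_trans ?_ (hc.nb j)
    refine (Finset.card_le_univ _).trans (le_of_eq ?_)
    show Fintype.card (Fin Y.k × Fin (2 * el)) = _
    rw [Fintype.card_prod, Fintype.card_fin, Fintype.card_fin]
  · intro j
    have h1 : (Finset.univ.filter fun r => T.lab r = .inr j).card =
        (rowsOf M x (Y.N j)).ncard := by
      rw [← hr.card_N j]
      congr 1
      refine Finset.filter_congr fun r _ => ?_
      exact hT.labN r j
    exact h1.trans (last T hn1 _ _ j _ (key j))

end Pool.Agent.MP7c5cdb.All
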