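import Pool.Agent.MP_7c5cdb.All.RowA
import Pool.Agent.MP_7c5cdb.All.RLayout
import Pool.Agent.MP_7c5cdb.All.RV
import Pool.Agent.MP_7c5cdb.All.RW
import Pool.Agent.Helper7.GD1
import Pool.Agent.Helper31.GD2

set_option autoImplicit false
open MeasureTheory Set
open scoped ENNReal

namespace Pool.Agent.MP7c5cdb.All

variable {d : ℕ}

/-! ### weights -/

/-- The weighted sum `∑ D^i p_i`. -/
def wsum (D : ℤ) (p : Fin d → ℤ) : ℤ := ∑ i : Fin d, D ^ (i : ℕ) * p i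

lemma wsum_inj_aux (C D : ℤ) (hD : 2 * C < D) : ∀ (n : ℕ) (p : Fin n → ℤ),
    (∀ i, |p i| ≤ 2 * C) → ∑ i : Fin n, D ^ (i : ℕ) * p i = 0 → (∀ i, |p i| < D) → p = 0 := by
  intro n
  induction n with
  | zero =>
    intro p _ _ _
    exact Subsingleton.elim _ _
  | succ n ih =>
    intro p hp h0 hlt
    rw [Fin.sum_univ_succ] at h0
    simp only [Fin.val_zero, pow_zero, one_mul, Fin.val_succ, pow_succ] at h0
    have h1 : ∑ x : Fin n, D ^ (x : ℕ) * D * p x.succ = D * ∑ x : Fin n, D ^ (x : ℕ) * p x.succ := by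
      rw [Finset.mul_sum]
      exact Finset.sum_congr rfl (fun i _ => by ring)
    rw [h1] at h0
    have hdvd : D ∣ p 0 := ⟨-∑ x : Fin n, D ^ (x : ℕ) * p x.succ, by linarith⟩
    have hp0 : p 0 = 0 := Int.eq_zero_of_abs_lt_dvd hdvd (hlt 0)
    rw [hp0, zero_add] at h0
    have hDpos : D ≠ 0 := by
      have := (abs_nonneg (p 0)).trans_lt (hlt 0)
      omega
    have h2 : ∑ x : Fin n, D ^ (x : ℕ) * p x.succ = 0 := (mul_eq_zero.1 h0).resolve_left hDpos
    have h3 := ih (fun i => p i.succ) (fun i => hp _) h2 (fun i => hlt _)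
    funext i
    refine Fin.cases hp0 (fun j => ?_) i
    exact congrFun h3 j

lemma wsum_inj (C : ℤ) (p q : Fin d → ℤ) (hp : ∀ i, |p i| ≤ C) (hq : ∀ i, |q i| ≤ C)
    (h : wsum (2 * C + 1) p = wsum (2 * C + 1) q) : p = q := by
  have h1 : ∀ i, |(p - q) i| ≤ 2 * C := by
    intro i
    have := abs_sub (p i) (q i)
    have h2 := hp i
    have h3 := hq i
    simp only [Pi.sub_apply]
    linarith
  have h2 : p - q = 0 := by
    refine wsum_inj_aux C (2 * C + 1) (by omega) d (p - q) h1 ?_ (fun i => ?_)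
    · unfold wsum at h
      have h3 : ∑ i : Fin d, (2 * C + 1) ^ (i : ℕ) * (p - q) i =
          ∑ i : Fin d, (2 * C + 1) ^ (i : ℕ) * p i - ∑ i : Fin d, (2 * C + 1) ^ (i : ℕ) * q i := by
        rw [← Finset.sum_sub_distrib]
        exact Finset.sum_congr rfl (fun i _ => by simp only [Pi.sub_apply]; ring)
      rw [h3, h, sub_self]
    · have := h1 i
      omega
  exact sub_eq_zero.1 h2

/-- The homomorphism `g ↦ wsum g`. -/
def whom (D : ℤ) : (Fin d → ℤ) →+ ℤ where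
  toFun g := wsum D g
  map_zero' := by simp [wsum]
  map_add' g h := by
    unfold wsum
    rw [← Finset.sum_add_distrib]
    exact Finset.sum_congr rfl (fun i _ => by simp only [Pi.add_apply]; ring)

/-! ### bounds -/

lemma pt_bound {M : ℕ} (hM : 0 < M) {B : ℝ} (x : Fin d → ℝ) (hx : x ∈ cube d) (p : Fin d → ℤ)
    (i : Fin d) (h : |pt M x p i| ≤ B) : |p i| ≤ ⌈B * M + 1⌉ := by
  have hM' : (0 : ℝ) < M := by exact_mod_cast hM
  unfold pt at h
  rw [abs_mul, abs_of_pos (show (0 : ℝ) < 4 / (M : ℝ) by positivity)] at h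
  have h1 : |x i + (p i : ℝ)| ≤ B * M / 4 := by
    have h2 : |x i + (p i : ℝ)| * (4 / (M : ℝ)) * (M / 4) ≤ B * (M / 4) :=
      mul_le_mul_of_nonneg_right h (by positivity)
    have h3 : |x i + (p i : ℝ)| * (4 / (M : ℝ)) * (M / 4) = |x i + (p i : ℝ)| := by
      field_simp
    rw [h3] at h2
    linarith
  have h4 := hx i
  simp only [mem_Ioc, zero_add] at h4
  have hB : 0 ≤ B * M := by
    have := (abs_nonneg _).trans h1
    linarith
  have h5 : |(p i : ℝ)| ≤ B * M + 1 := by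
    have : (p i : ℝ) = (x i + (p i : ℝ)) - x i := by ring
    rw [this]
    refine (abs_sub _ _).trans ?_
    rw [abs_of_pos h4.1]
    linarith [h4.2]
  have h6 : |(p i : ℝ)| ≤ (⌈B * M + 1⌉ : ℤ) := h5.trans (Int.le_ceil _)
  exact_mod_cast h6

lemma abs_le_of_sq_lt {v : Fin d → ℝ} (h : sq v < 1) (i : Fin d) : |v i| < 1 := by
  have h1 : v i ^ 2 ≤ sq v := Finset.single_le_sum (f := fun i => v i ^ 2)
    (fun _ _ => sq_nonneg _) (Finset.mem_univ i)
  exact (sq_lt_one_iff_abs_lt_one _).1 (h1.trans_lt h)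

lemma exists_bound {Y : Set (Fin d → ℝ)} (h : Bornology.IsBounded Y) :
    ∃ B : ℝ, 0 ≤ B ∧ ∀ y ∈ Y, ∀ i, |y i| ≤ B := by
  obtain ⟨B, hB⟩ := h.exists_norm_le
  refine ⟨|B|, abs_nonneg _, fun y hy i => ?_⟩
  exact ((norm_le_pi_norm y i).trans (hB y hy)).trans (le_abs_self _)

lemma per_bound {B : ℝ} {M : ℕ} {x : Fin d → ℝ} {p g : Fin d → ℤ} {u : Fin d → ℝ}
    (h : pt M x p + per g ∈ bl u) (hp : ∀ i, |pt M x p i| ≤ B) (hu : ∀ i, |u i| ≤ B)
    (i : Fin d) : |g i| ≤ ⌈2 * B + 1⌉ := by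
  have h1 := abs_le_of_sq_lt h i
  have h2 := hp i
  have h3 := hu i
  simp only [Pi.sub_apply, Pi.add_apply, per] at h1
  rw [abs_lt] at h1
  rw [abs_le] at h2 h3
  have h4 : |(g i : ℝ)| ≤ 2 * B + 1 := by
    rw [abs_le]
    constructor <;> linarith [h1.1, h1.2, h2.1, h2.2, h3.1, h3.2]
  have h6 : |(g i : ℝ)| ≤ (⌈2 * B + 1⌉ : ℤ) := h4.trans (Int.le_ceil _)
  exact_mod_cast h6

lemma mem_bl_scale {M : ℕ} (hM : 0 < M) (x : Fin d → ℝ) (p g : Fin d → ℤ) (u : Fin d → ℝ) :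
    pt M x p + per g ∈ bl u ↔
      (fun i => x i + ((p i : ℝ) + (M : ℝ) * (g i : ℝ)) - (M : ℝ) / 4 * u i) ∈
        {y : Fin d → ℝ | ∑ i, (y i) ^ 2 < ((M : ℝ) / 4) ^ 2} := by
  have hM' : (0 : ℝ) < M := by exact_mod_cast hM
  have h1 : ∀ i, (pt M x p + per g - u) i =
      (4 / (M : ℝ)) * (x i + ((p i : ℝ) + (M : ℝ) * (g i : ℝ)) - (M : ℝ) / 4 * u i) := by
    intro i
    simp only [pt, per, Pi.sub_apply, Pi.add_apply]
    field_simp
    ring
  show ∑ i, (pt M x p + per g - u) i ^ 2 < 1 ↔ _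
  simp only [h1, mul_pow, Set.mem_setOf_eq]
  rw [← Finset.mul_sum]
  have h2 : (0 : ℝ) < (M : ℝ) ^ 2 := by positivity
  have h3 : (4 / (M : ℝ)) ^ 2 * (M / 4) ^ 2 = 1 := by
    field_simp
  constructor
  · intro h
    have h4 : (M / 4 : ℝ) ^ 2 * ((4 / (M : ℝ)) ^ 2 *
        ∑ i, (x i + ((p i : ℝ) + (M : ℝ) * (g i : ℝ)) - (M : ℝ) / 4 * u i) ^ 2) <
        (M / 4 : ℝ) ^ 2 * 1 := mul_lt_mul_of_pos_left h (by positivity)
    rw [← mul_assoc, mul_comm ((M / 4 : ℝ) ^ 2) ((4 / (M : ℝ)) ^ 2), h3] at h4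
    linarith
  · intro h
    have h4 : (4 / (M : ℝ)) ^ 2 *
        ∑ i, (x i + ((p i : ℝ) + (M : ℝ) * (g i : ℝ)) - (M : ℝ) / 4 * u i) ^ 2 <
        (4 / (M : ℝ)) ^ 2 * (M / 4 : ℝ) ^ 2 := mul_lt_mul_of_pos_left h (by positivity)
    rwa [h3] at h4

lemma measurable_ball_set (r : ℝ) : MeasurableSet {y : Fin d → ℝ | ∑ i, (y i) ^ 2 < r ^ 2} :=
  measurableSet_lt (Finset.measurable_sum _ (fun i _ => (measurable_pi_apply i).pow_const 2))
    measurable_const

open Pool.Agent.Helper7.GPat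

/-- ROW F1. Some ball is a window, `d > 0`. -/
theorem exists_ball_radius {d : ℕ} (hd : 0 < d) :
    ∃ r : ℝ, 0 < r ∧ ∃ S, IsGRB {y : Fin d → ℝ | ∑ i, (y i) ^ 2 < r ^ 2} S := by
  classical
  obtain ⟨Y, hY⟩ := exists_rlay d
  obtain ⟨M, n, lam, mu, el, hM, hnum, hcard, hcnt⟩ := exists_rnumbers hd hY
  have hM' : (0 : ℝ) < M := by exact_mod_cast hM
  choose BX hBX0 hBX using fun g => exists_bound (rjordan_X Y g).1
  choose BN hBN0 hBN using fun j => exists_bound (rjordan_N Y j).1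
  let D : Des := Y.des n lam mu hnum (2 * el)
  let P0 : D.Pos → Fin d → ℝ := Y.posn n lam mu hnum (2 * el)
  let B : ℝ := (∑ g, BX g + ∑ j, BN j) + ∑ u : D.Pos, ∑ i, |P0 u i|
  have hsX : 0 ≤ ∑ g, BX g := Finset.sum_nonneg (fun g _ => hBX0 g)
  have hsN : 0 ≤ ∑ j, BN j := Finset.sum_nonneg (fun j _ => hBN0 j)
  have hsP : 0 ≤ ∑ u : D.Pos, ∑ i, |P0 u i| :=
    Finset.sum_nonneg (fun u _ => Finset.sum_nonneg (fun i _ => abs_nonneg _))
  have hBX' : ∀ g, ∀ y ∈ Y.X g, ∀ i, |y i| ≤ B := by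
    intro g y hy i
    have h1 := hBX g y hy i
    have h2 : BX g ≤ ∑ g, BX g := Finset.single_le_sum (fun g _ => hBX0 g) (Finset.mem_univ g)
    show _ ≤ (∑ g, BX g + ∑ j, BN j) + ∑ u : D.Pos, ∑ i, |P0 u i|
    linarith
  have hBN' : ∀ j, ∀ y ∈ Y.N j, ∀ i, |y i| ≤ B := by
    intro j y hy i
    have h1 := hBN j y hy i
    have h2 : BN j ≤ ∑ j, BN j := Finset.single_le_sum (fun g _ => hBN0 g) (Finset.mem_univ j)
    show _ ≤ (∑ g, BX g + ∑ j, BN j) + ∑ u : D.Pos, ∑ i, |P0 u i|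
    linarith
  have hBP : ∀ u i, |P0 u i| ≤ B := by
    intro u i
    have h1 : |P0 u i| ≤ ∑ i, |P0 u i| :=
      Finset.single_le_sum (f := fun i => |P0 u i|) (fun i _ => abs_nonneg _) (Finset.mem_univ i)
    have h2 : ∑ i, |P0 u i| ≤ ∑ u : D.Pos, ∑ i, |P0 u i| :=
      Finset.single_le_sum (f := fun u => ∑ i, |P0 u i|)
        (fun u _ => Finset.sum_nonneg (fun i _ => abs_nonneg _)) (Finset.mem_univ u)
    show _ ≤ (∑ g, BX g + ∑ j, BN j) + ∑ u : D.Pos, ∑ i, |P0 u i|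
    linarith
  let C : ℤ := ⌈B * M + 1⌉
  let C' : ℤ := ⌈2 * B + 1⌉
  let Dw : ℤ := 2 * C + 1
  let φ : (Fin d → ℤ) →+ ℤ := whom Dw
  let Box : Finset (Fin d → ℤ) := Fintype.piFinset (fun _ => Finset.Icc (-C) C)
  let Box' : Finset (Fin d → ℤ) := Fintype.piFinset (fun _ => Finset.Icc (-C') C')
  have hBox : ∀ p : Fin d → ℤ, p ∈ Box ↔ ∀ i, |p i| ≤ C := by
    intro p
    simp only [Box, Fintype.mem_piFinset, Finset.mem_Icc, abs_le]
  have hBox' : ∀ p : Fin d → ℤ, p ∈ Box' ↔ ∀ i, |p i| ≤ C' := by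
    intro p
    simp only [Box', Fintype.mem_piFinset, Finset.mem_Icc, abs_le]
  -- representatives
  have hrepC : ∀ x ∈ cube d, ∀ rep, Rep Y M x rep → ∀ r i, |rep r i| ≤ C := by
    intro x hx rep hr r i
    rcases hr.mem r with ⟨g, hg⟩ | ⟨j, hj⟩
    · exact pt_bound hM x hx _ i (hBX' g _ hg i)
    · exact pt_bound hM x hx _ i (hBN' j _ hj i)
  have hrepB : ∀ x rep, Rep Y M x rep → ∀ r i, |pt M x (rep r) i| ≤ B := by
    intro x rep hr r i
    rcases hr.mem r with ⟨g, hg⟩ | ⟨j, hj⟩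
    · exact hBX' g _ hg i
    · exact hBN' j _ hj i
  have hinjφ : ∀ x ∈ cube d, ∀ rep, Rep Y M x rep →
      ∀ r r', φ (rep r) = φ (rep r') → rep r = rep r' := fun x hx rep hr r r' h =>
    wsum_inj C _ _ (hrepC x hx rep hr r) (hrepC x hx rep hr r') h
  -- the finite set of patterns
  let S1 : Finset (Option ((Fin d → ℤ) × ℤ)) := insert none
    ((Box ×ˢ Box').image (fun q => some (q.2, φ (q.1 + (M : ℤ) • q.2))))
  let S2 : Finset ℤ := Box.image φ
  let 𝒯 : Set (Pool.Agent.Helper7.GPat.Pat D (Fin d → ℤ) (RowT d M)) :=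
    {T | ∃ x ∈ cube d, ∃ rep, Rep Y M x rep ∧ Descr hnum (2 * el) M x φ rep T}
  have hS1 : ∀ T ∈ 𝒯, ∀ r P, T.see r P ∈ S1 := by
    rintro T ⟨x, hx, rep, hr, hT⟩ r P
    rcases hs : T.see r P with _ | ⟨g, m⟩
    · exact Finset.mem_insert_self _ _
    · obtain ⟨h1, h2⟩ := (hT.see r P g m).1 hs
      refine Finset.mem_insert_of_mem (Finset.mem_image.2 ⟨(rep r, g), ?_, ?_⟩)
      · rw [Finset.mem_product]
        exact ⟨(hBox _).2 (hrepC x hx rep hr r),
          (hBox' _).2 (per_bound h1 (hrepB x rep hr r) (hBP P))⟩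
      · rw [h2]
  have hS2 : ∀ T ∈ 𝒯, ∀ r, T.num r ∈ S2 := by
    rintro T ⟨x, hx, rep, hr, hT⟩ r
    rw [hT.num r]
    exact Finset.mem_image_of_mem _ ((hBox _).2 (hrepC x hx rep hr r))
  have hfin : Finite 𝒯 := by
    let f : 𝒯 → (RowT d M → D.Pos → S1) × (RowT d M → Fin D.Γ ⊕ Fin D.k) × (RowT d M → S2) :=
      fun T => (fun r P => ⟨T.1.see r P, hS1 T.1 T.2 r P⟩, T.1.lab,
        fun r => ⟨T.1.num r, hS2 T.1 T.2 r⟩)
    refine Finite.of_injective f ?_
    rintro ⟨T, hT⟩ ⟨T', hT'⟩ h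
    have h1 : ∀ r P, T.see r P = T'.see r P := fun r P =>
      congrArg Subtype.val (congrFun (congrFun (congrArg Prod.fst h) r) P)
    have h2 : T.lab = T'.lab := congrArg (fun q => q.2.1) h
    have h3 : ∀ r, T.num r = T'.num r := fun r =>
      congrArg Subtype.val (congrFun (congrArg (fun q => q.2.2) h) r)
    have h1' : T.see = T'.see := by
      funext r P
      exact h1 r P
    have h3' : T.num = T'.num := funext h3
    refine Subtype.ext ?_
    show T = T'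
    cases T
    cases T'
    simp only at h1' h2 h3'
    subst h1'
    subst h2
    subst h3'
    rfl
  -- adapted bijections
  have hgood : ∀ T : 𝒯, ∃ σ : D.Col ≃ RowT d M, Pool.Agent.Helper7.GPat.Good T.1 σ := by
    rintro ⟨T, x, hx, rep, hr, hT⟩
    obtain ⟨fl, hfl⟩ := hcnt x
    exact exists_good_of_cnt hY hnum hM x φ hr hfl hT (hinjφ x hx rep hr)
  choose σ hσ using hgood
  obtain ⟨θ, hθ⟩ := Pool.Agent.Helper7.GPat.Pat.exists_theta_of_good (I := 𝒯)
    (fun T => T.1) σ hσ (by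
      rintro ⟨T, x, hx, rep, hr, hT⟩ g r r' _ _ h
      simp only [hT.num] at h
      exact hr.inj (hinjφ x hx rep hr r r' h)) (by
      rintro ⟨T, x, hx, rep, hr, hT⟩ j j' r r' _ _ h
      simp only [hT.num] at h
      exact hr.inj (hinjφ x hx rep hr r r' h))
  have hcardE : Fintype.card D.Col = Fintype.card (RowT d M) := by
    have h1 : Fintype.card D.Col = ∑ j, mu j + (∑ g, n g + Y.k * (2 * el)) := by
      show Fintype.card (((j : Fin (Y.k + 1)) × Fin (mu j)) ⊕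
        (((g : Fin Y.Γ) × Fin (n g)) ⊕ (Fin Y.k × Fin (2 * el)))) = _
      simp only [Fintype.card_sum, Fintype.card_sigma, Fintype.card_fin, Fintype.card_prod]
    rw [h1]
    simp only [RowT, Fintype.card_pi, Fintype.card_fin, Finset.prod_const, Finset.card_univ]
    omega
  let e : D.Col ≃ RowT d M := Fintype.equivOfCardEq hcardE
  obtain ⟨ε, -, hdet⟩ := Pool.Agent.Helper7.GPat.Pat.exists_eps' (I := 𝒯) (fun T => T.1) θ σ
    (fun T c => (hσ T).blk c) hθ e one_pos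
  refine ⟨(M : ℝ) / 4, by positivity, ?_⟩
  refine exists_isGRB_of_dom (κ := D.Col) M hM (measurable_ball_set _) ?_
    (fun c i => (M : ℝ) / 4 * P0 (D.pos c) i)
    (fun c i => D.par θ ε c * ((Dw ^ (i : ℕ) : ℤ) : ℝ)) C ?_
  · refine ⟨(M : ℝ) / 4, fun y hy i => ?_⟩
    have h1 : y i ^ 2 ≤ ∑ i, y i ^ 2 := Finset.single_le_sum (f := fun i => y i ^ 2)
      (fun _ _ => sq_nonneg _) (Finset.mem_univ i)
    have h2 : y i ^ 2 < ((M : ℝ) / 4) ^ 2 := h1.trans_lt hy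
    exact abs_le_of_sq_le_sq h2.le (by positivity)
  intro x hxc
  obtain ⟨rep, hr⟩ := exists_rep hY hM x
  obtain ⟨T, hT⟩ := RV.exists_descr hY hnum (2 * el) hM x φ hr
  have hmem : T ∈ 𝒯 := ⟨x, hxc, rep, hr, hT⟩
  let vs : D.Col → D.Col → Finset (Fin d → ℤ) := fun ρ c =>
    Box'.filter (fun g => pt M x (rep (e ρ)) + per g ∈ bl (P0 (D.pos c)))
  have hvs : ∀ ρ c g, g ∈ vs ρ c ↔ pt M x (rep (e ρ)) + per g ∈ bl (P0 (D.pos c)) := by
    intro ρ c g
    simp only [vs, Finset.mem_filter]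
    refine ⟨fun h => h.2, fun h => ⟨?_, h⟩⟩
    rw [hBox']
    exact per_bound h (hrepB x rep hr _) (hBP _)
  refine ⟨fun ρ => rep (e ρ), vs, fun ρ => hrepC x hxc rep hr _, ?_, ?_, ?_⟩
  · intro p
    obtain ⟨⟨r, g⟩, hp, huniq⟩ := hr.tr p
    refine ⟨(e.symm r, g), ?_, ?_⟩
    · show p = rep (e (e.symm r)) + (M : ℤ) • g
      rw [Equiv.apply_symm_apply]
      exact hp
    · rintro ⟨c', g'⟩ hcg
      have h5 := huniq (e c', g') hcg
      rw [Prod.mk.injEq] at h5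
      refine Prod.ext ?_ h5.2
      show c' = e.symm r
      rw [← h5.1, Equiv.symm_apply_apply]
  · intro ρ c g
    rw [hvs]
    exact mem_bl_scale hM x (rep (e ρ)) g _
  · have h6 := hdet ⟨T, hmem⟩
    have h7 : (Matrix.of fun c c' => T.mat θ ε (e c) c') = (fun ρ c => ∑ g ∈ vs ρ c,
        AddMonoidAlgebra.single g (ee (∑ i : Fin d, (D.par θ ε c * ((Dw ^ (i : ℕ) : ℤ) : ℝ)) *
          ((rep (e ρ) i : ℝ) + (M : ℝ) * (g i : ℝ))))) := by
      funext ρ c
      have h8 : ∀ g : Fin d → ℤ, (∑ i : Fin d, (D.par θ ε c * ((Dw ^ (i : ℕ) : ℤ) : ℝ)) *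
          ((rep (e ρ) i : ℝ) + (M : ℝ) * (g i : ℝ))) =
          D.par θ ε c * ((φ (rep (e ρ) + (M : ℤ) • g) : ℤ) : ℝ) := by
        intro g
        have h9 : φ (rep (e ρ) + (M : ℤ) • g) =
            ∑ i : Fin d, Dw ^ (i : ℕ) * (rep (e ρ) i + (M : ℤ) * g i) := rfl
        rw [h9]
        push_cast
        rw [Finset.mul_sum]
        refine Finset.sum_congr rfl (fun i _ => ?_)
        ring
      simp only [h8]
      show ent (T.see (e ρ) (D.pos c)) (D.par θ ε c) = _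
      rcases hs : T.see (e ρ) (D.pos c) with _ | ⟨g, m⟩
      · have h10 : vs ρ c = ∅ := by
          rw [Finset.eq_empty_iff_forall_notMem]
          intro g hg
          have h11 := (hT.see (e ρ) (D.pos c) g _).2 ⟨(hvs ρ c g).1 hg, rfl⟩
          rw [hs] at h11
          exact absurd h11 (by simp)
        rw [h10, Finset.sum_empty]
        rfl
      · obtain ⟨h12, h13⟩ := (hT.see (e ρ) (D.pos c) g m).1 hs
        have h10 : vs ρ c = {g} := by
          ext g'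
          rw [Finset.mem_singleton]
          constructor
          · intro hg
            have h11 := (hT.see (e ρ) (D.pos c) g' _).2 ⟨(hvs ρ c g').1 hg, rfl⟩
            rw [hs, Option.some.injEq, Prod.mk.injEq] at h11
            exact h11.1.symm
          · rintro rfl
            exact (hvs ρ c g').2 h12
        rw [h10, Finset.sum_singleton, ← h13]
        rfl
    rw [← h7]
    exact h6

end Pool.Agent.MP7c5cdb.All
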