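import Mathlib

/-!
# Flows on a tree given by parents
-/

set_option autoImplicit false

namespace Pool.Agent.MP7c5cdb.All

/-- ROW RF (flow). Flows on a tree given by parents. -/
theorem rexists_flow {k : ℕ} (par : Fin k → Fin (k + 1)) (hpar : ∀ e, (par e : ℕ) ≤ (e : ℕ))
    (η : Fin (k + 1) → ℤ) (hη : ∑ j, η j = 0) :
    ∃ fl : Fin k → ℤ, (∀ e, |fl e| ≤ ∑ j, |η j|) ∧
      ∀ j, η j = ∑ e, ((if e.succ = j then fl e else 0) - (if par e = j then fl e else 0)) := by
  induction k with
  | zero =>
    refine ⟨fun e => e.elim0, fun e => e.elim0, fun j => ?_⟩
    have h1 : j = 0 := by
      apply Fin.ext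
      have := j.2
      simp
    subst h1
    simpa using hη
  | succ k ih =>
    have hlt : ∀ e : Fin k, ((par e.castSucc : Fin (k + 2)) : ℕ) < k + 1 := fun e => by
      have h1 := hpar e.castSucc
      have h2 := e.2
      simp only [Fin.val_castSucc] at h1
      omega
    have hltl : ((par (Fin.last k) : Fin (k + 2)) : ℕ) < k + 1 := by
      have h1 := hpar (Fin.last k)
      simp only [Fin.val_last] at h1
      omega
    obtain ⟨pl, hpl⟩ : ∃ pl : Fin (k + 1), pl.castSucc = par (Fin.last k) :=
      ⟨(par (Fin.last k)).castLT hltl, Fin.castSucc_castLT _ _⟩
    set a : ℤ := η (Fin.last (k + 1)) with ha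
    obtain ⟨fl, hfl, hfl'⟩ := ih (fun e => (par e.castSucc).castLT (hlt e))
      (fun e => by simpa using hpar e.castSucc)
      (fun j => η j.castSucc + if pl = j then a else 0) (by
        rw [Finset.sum_add_distrib, Finset.sum_ite_eq, if_pos (Finset.mem_univ _)]
        rw [Fin.sum_univ_castSucc] at hη
        exact hη)
    have hsum : ∑ j : Fin (k + 1), |η j.castSucc + if pl = j then a else 0| ≤
        ∑ j, |η j| := by
      rw [Fin.sum_univ_castSucc (fun j : Fin (k + 2) => |η j|)]
      calc ∑ j : Fin (k + 1), |η j.castSucc + if pl = j then a else 0|
          ≤ ∑ j : Fin (k + 1), (|η j.castSucc| + if pl = j then |a| else 0) := by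
            refine Finset.sum_le_sum fun j _ => ?_
            refine (abs_add_le _ _).trans ?_
            split_ifs
            · exact le_rfl
            · simp
        _ = _ := by
            rw [Finset.sum_add_distrib, Finset.sum_ite_eq, if_pos (Finset.mem_univ _)]
    refine ⟨Fin.snoc (α := fun _ => ℤ) fl a, ?_, ?_⟩
    · intro e
      refine Fin.lastCases ?_ (fun e' => ?_) e
      · rw [Fin.snoc_last]
        exact Finset.single_le_sum (f := fun j => |η j|) (fun _ _ => abs_nonneg _)
          (Finset.mem_univ (Fin.last (k + 1)))
      · rw [Fin.snoc_castSucc]
        exact (hfl e').trans hsum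
    · intro j
      rw [Fin.sum_univ_castSucc]
      simp only [Fin.snoc_castSucc, Fin.snoc_last]
      refine Fin.lastCases ?_ (fun j' => ?_) j
      · have h1 : ∀ e : Fin k, (if (e.castSucc).succ = Fin.last (k + 1) then fl e else 0) -
            (if par e.castSucc = Fin.last (k + 1) then fl e else 0) = 0 := by
          intro e
          have h2 : (e.castSucc).succ ≠ Fin.last (k + 1) := by
            intro h
            have := congrArg Fin.val h
            have h3 := e.2
            simp at this
            omega
          have h3 : par e.castSucc ≠ Fin.last (k + 1) := by
            intro h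
            have := congrArg Fin.val h
            have h4 := hlt e
            simp at this
            omega
          rw [if_neg h2, if_neg h3, sub_zero]
        have h2 : (Fin.last k).succ = Fin.last (k + 1) := rfl
        have h3 : par (Fin.last k) ≠ Fin.last (k + 1) := by
          intro h
          have := congrArg Fin.val h
          simp at this
          omega
        rw [Finset.sum_congr rfl fun e _ => h1 e, Finset.sum_const_zero, if_pos h2, if_neg h3]
        simp [ha]
      · have h1 : ∀ e : Fin k, (if (e.castSucc).succ = j'.castSucc then fl e else 0) -
            (if par e.castSucc = j'.castSucc then fl e else 0) =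
            (if e.succ = j' then fl e else 0) -
            (if (par e.castSucc).castLT (hlt e) = j' then fl e else 0) := by
          intro e
          have h2 : ((e.castSucc).succ = j'.castSucc) ↔ (e.succ = j') := by
            rw [Fin.succ_castSucc]
            exact Fin.castSucc_inj
          have h3 : (par e.castSucc = j'.castSucc) ↔ ((par e.castSucc).castLT (hlt e) = j') := by
            constructor
            · intro h
              apply Fin.ext
              have := congrArg Fin.val h
              simpa using this
            · intro h
              apply Fin.ext
              have := congrArg Fin.val h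
              simpa using this
          simp only [h2, h3]
        rw [Finset.sum_congr rfl fun e _ => h1 e, ← hfl' j']
        have h2 : (Fin.last k).succ ≠ j'.castSucc := by
          intro h
          have := congrArg Fin.val h
          have h3 := j'.2
          simp at this
          omega
        rw [if_neg h2, ← hpl]
        have h3 : (pl.castSucc = j'.castSucc) ↔ (pl = j') := Fin.castSucc_inj
        simp only [h3]
        ring

end Pool.Agent.MP7c5cdb.All
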