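import Pool.Agent.MP_7c5cdb.All.RDefs
import Pool.Agent.Helper7.GCount

set_option autoImplicit false
open MeasureTheory Set
open scoped ENNReal Pointwise

namespace Pool.Agent.MP7c5cdb.All

variable {d : ℕ}

namespace RJ

open Pool.Agent.Helper7.GCount

lemma sqball_eq (z : Fin d → ℝ) (r : ℝ) : {y : Fin d → ℝ | sq (y - z) < r ^ 2} = eball z r := by
  ext y
  simp only [sq, eball, mem_ofPred_eq, Pi.sub_apply]

lemma bl_eq (u : Fin d → ℝ) : bl u = eball u 1 := by
  rw [← sqball_eq]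
  simp only [bl, one_pow]

lemma measurableSet_eball (z : Fin d → ℝ) (r : ℝ) : MeasurableSet (eball z r) := by
  unfold eball
  exact measurableSet_lt (by fun_prop) (by fun_prop)

lemma isOpen_eball (z : Fin d → ℝ) (r : ℝ) : IsOpen (eball z r) := by
  unfold eball
  exact isOpen_lt (by fun_prop) (by fun_prop)

/-- Bounded Jordan measurable sets. -/
structure Jd (A : Set (Fin d → ℝ)) : Prop where
  b : Bornology.IsBounded A
  m : MeasurableSet A
  f : volume (frontier A) = 0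

lemma jd_bl (u : Fin d → ℝ) : Jd (bl u) := by
  rw [bl_eq]
  exact ⟨eball_bounded u one_pos, measurableSet_eball u 1, jordan_eball u one_pos⟩

lemma jd_zone (u u' : Fin d → ℝ) : Jd (zone u u') := by
  have h1 := jd_bl u
  have h2 := jd_bl u'
  have h3 : zone u u' = (bl u \ bl u') ∪ (bl u' \ bl u) := by
    rw [zone, Set.symmDiff_def]
  rw [h3]
  exact ⟨(h1.b.subset sdiff_subset).union (h2.b.subset sdiff_subset),
    (h1.m.diff h2.m).union (h2.m.diff h1.m),
    jordan_union (jordan_diff h1.f h2.f) (jordan_diff h2.f h1.f)⟩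

lemma frontier_shift (A : Set (Fin d → ℝ)) (c : Fin d → ℝ) :
    frontier {y | y - c ∈ A} = {y | y - c ∈ frontier A} :=
  ((Homeomorph.subRight c).preimage_frontier A).symm

lemma vol_shift (A : Set (Fin d → ℝ)) (c : Fin d → ℝ) :
    volume {y : Fin d → ℝ | y - c ∈ A} = volume A := by
  have h : {y : Fin d → ℝ | y - c ∈ A} = (fun y => y + (-c)) ⁻¹' A := by
    ext y
    simp only [mem_ofPred_eq, mem_preimage, sub_eq_add_neg]
  rw [h, measure_preimage_add_right]

lemma jd_shift_f {A : Set (Fin d → ℝ)} (h : volume (frontier A) = 0) (c : Fin d → ℝ) :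
    volume (frontier {y : Fin d → ℝ | y - c ∈ A}) = 0 := by
  rw [frontier_shift, vol_shift, h]

lemma jd_cut {ι : Type*} [Fintype ι] {A : Set (Fin d → ℝ)} {B : ι → Set (Fin d → ℝ)}
    (P : ι → Prop) (hA : Jd A) (hB : ∀ i, Jd (B i)) :
    Jd {y | y ∈ A ∧ ∀ i, P i → ∀ n : Fin d → ℤ, y - per n ∉ B i} := by
  classical
  obtain ⟨C, hC⟩ := hA.b.exists_norm_le
  choose K hK using fun i => (hB i).b.exists_norm_le
  obtain ⟨L, hL⟩ : ∃ L : ℝ, ∀ i, K i ≤ L :=
    ⟨∑ i, |K i|, fun i => (le_abs_self _).trans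
      (Finset.single_le_sum (f := fun i => |K i|) (fun _ _ => abs_nonneg _) (Finset.mem_univ i))⟩
  set T : ℤ := ⌈(C + L) / 4⌉ with hT
  set F : Finset (Fin d → ℤ) := Fintype.piFinset fun _ => Finset.Icc (-T) T with hF
  have hmem : ∀ y ∈ A, ∀ i, ∀ n : Fin d → ℤ, y - per n ∈ B i → n ∈ F := by
    intro y hy i n hn
    rw [hF, Fintype.mem_piFinset]
    intro j
    have h1 := (norm_le_pi_norm y j).trans (hC y hy)
    have h2 := ((norm_le_pi_norm (y - per n) j).trans (hK i _ hn)).trans (hL i)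
    rw [Real.norm_eq_abs, abs_le] at h1 h2
    simp only [Pi.sub_apply, per] at h2
    have h3 : (C + L) / 4 ≤ T := Int.le_ceil _
    rw [Finset.mem_Icc]
    constructor
    · have h4 : -(T : ℝ) ≤ n j := by linarith [h1.1, h2.2]
      exact_mod_cast h4
    · have h4 : (n j : ℝ) ≤ T := by linarith [h1.2, h2.1]
      exact_mod_cast h4
  have heq : {y | y ∈ A ∧ ∀ i, P i → ∀ n : Fin d → ℤ, y - per n ∉ B i} =
      A \ (⋃ i ∈ Finset.univ.filter P, ⋃ n ∈ F, {y | y - per n ∈ B i}) := by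
    ext y
    simp only [mem_ofPred_eq, mem_sdiff, mem_iUnion, not_exists, Finset.mem_filter,
      Finset.mem_univ, true_and]
    constructor
    · rintro ⟨h1, h2⟩
      exact ⟨h1, fun i hi n _ => h2 i hi n⟩
    · rintro ⟨h1, h2⟩
      exact ⟨h1, fun i hi n hn => h2 i hi n (hmem y h1 i n hn) hn⟩
  rw [heq]
  refine ⟨hA.b.subset sdiff_subset, hA.m.diff ?_, jordan_diff hA.f ?_⟩
  · refine Finset.measurableSet_biUnion _ fun i _ => Finset.measurableSet_biUnion _ fun n _ => ?_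
    exact (hB i).m.preimage (measurable_sub_const _)
  · exact jordan_iUnion_finset _ _ fun i _ => jordan_iUnion_finset _ _ fun n _ =>
      jd_shift_f (hB i).f _

lemma rowsOf_eq_idx (M : ℕ) (hM : 0 < M) (x : Fin d → ℝ) (Y : Set (Fin d → ℝ)) :
    rowsOf M x Y = idx (((M : ℝ) / 4) • Y) x := by
  have hM' : (0 : ℝ) < M := by exact_mod_cast hM
  have hR : (M : ℝ) / 4 ≠ 0 := by positivity
  ext p
  simp only [rowsOf, idx, mem_ofPred_eq]
  rw [Set.mem_smul_set_iff_inv_smul_mem₀ hR]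
  have h : pt M x p = ((M : ℝ) / 4)⁻¹ • (x + zv p) := by
    funext i
    simp only [pt, Pi.smul_apply, Pi.add_apply, zv, smul_eq_mul, inv_div]
    ring
  rw [h]

end RJ

open RJ Pool.Agent.Helper7.GCount

/-- ROW RJ. The counted sets are bounded, measurable, with null frontier. -/
theorem rjordan_X (Y : RLay d) (g : Fin Y.Γ) : Bornology.IsBounded (Y.X g) ∧
    MeasurableSet (Y.X g) ∧ volume (frontier (Y.X g)) = 0 := by
  have h := jd_cut (A := Y.S g) (B := fun g' => Y.S g') (fun g' => g' < g) (jd_zone _ _)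
    (fun _ => jd_zone _ _)
  have heq : Y.X g = {y | y ∈ Y.S g ∧ ∀ g', g' < g → ∀ n : Fin d → ℤ, y - per n ∉ Y.S g'} := by
    ext y
    simp only [RLay.X, RLay.SP, zoneP, RLay.S, mem_ofPred_eq, not_exists]
  rw [heq]
  exact ⟨h.b, h.m, h.f⟩

theorem rjordan_N (Y : RLay d) (j : Fin (Y.k + 1)) : Bornology.IsBounded (Y.N j) ∧
    MeasurableSet (Y.N j) ∧ volume (frontier (Y.N j)) = 0 := by
  have h := jd_cut (A := bl (Y.z j)) (B := fun g' => Y.S g') (fun _ => True) (jd_bl _)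
    (fun _ => jd_zone _ _)
  have heq : Y.N j = {y | y ∈ bl (Y.z j) ∧ ∀ g', True → ∀ n : Fin d → ℤ, y - per n ∉ Y.S g'} := by
    ext y
    simp only [RLay.N, RLay.U, RLay.SP, zoneP, RLay.S, mem_ofPred_eq, not_exists, true_imp_iff]
    exact and_comm
  rw [heq]
  exact ⟨h.b, h.m, h.f⟩

theorem rjordan_nb (Y : RLay d) (hY : 0 < Y.eta) (j : Fin (Y.k + 1)) :
    Bornology.IsBounded (Y.nb j) ∧ MeasurableSet (Y.nb j) ∧ volume (frontier (Y.nb j)) = 0 ∧
      volume (Y.nb j) = volume {v : Fin d → ℝ | sq v < Y.eta ^ 2} := by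
  have h : Y.nb j = eball (Y.z j) Y.eta := by
    rw [← sqball_eq]
    rfl
  refine ⟨?_, ?_, ?_, vol_shift {v : Fin d → ℝ | sq v < Y.eta ^ 2} (Y.z j)⟩
  · rw [h]
    exact eball_bounded _ hY
  · rw [h]
    exact measurableSet_eball _ _
  · rw [h]
    exact jordan_eball _ hY

theorem rvolume_ball_pos (r : ℝ) (hr : 0 < r) :
    0 < volume {v : Fin d → ℝ | sq v < r ^ 2} ∧ volume {v : Fin d → ℝ | sq v < r ^ 2} < ∞ := by
  have h : {v : Fin d → ℝ | sq v < r ^ 2} = eball 0 r := by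
    rw [← sqball_eq]
    simp only [sub_zero]
  rw [h]
  refine ⟨(isOpen_eball 0 r).measure_pos _ ⟨0, ?_⟩, (eball_bounded 0 hr).measure_lt_top⟩
  simp only [eball, mem_ofPred_eq, Pi.zero_apply, sub_zero]
  simp only [ne_eq, OfNat.ofNat_ne_zero, not_false_eq_true, zero_pow, Finset.sum_const_zero]
  positivity

/-- Rows of a bounded set. -/
theorem rrows_finite {Y : Set (Fin d → ℝ)} (hb : Bornology.IsBounded Y) (M : ℕ) (hM : 0 < M)
    (x : Fin d → ℝ) : (rowsOf M x Y).Finite := by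
  rw [rowsOf_eq_idx M hM]
  exact idx_finite (hb.smul₀ _) x

/-- Uniform count (from GCount.count_fine). -/
theorem rcount_uniform {Y : Set (Fin d → ℝ)} (hb : Bornology.IsBounded Y) (_hm : MeasurableSet Y)
    (hf : volume (frontier Y) = 0) (δ : ℝ) (hδ : 0 < δ) :
    ∃ M₀ : ℕ, ∀ M : ℕ, M₀ ≤ M → 0 < M → ∀ x : Fin d → ℝ,
      |((rowsOf M x Y).ncard : ℝ) - (volume Y).toReal * ((M : ℝ) / 4) ^ d| ≤
        δ * ((M : ℝ) / 4) ^ d := by
  obtain ⟨R₀, hR₀, H⟩ := count_smul hb hf hδ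
  refine ⟨⌈4 * R₀⌉₊, fun M hM hM0 x => ?_⟩
  have h1 : R₀ ≤ (M : ℝ) / 4 := by
    have h2 : 4 * R₀ ≤ M := (Nat.le_ceil _).trans (by exact_mod_cast hM)
    linarith
  have h3 := (H _ h1 x).2
  rw [rowsOf_eq_idx M hM0, mul_comm (volume Y).toReal]
  exact h3

end Pool.Agent.MP7c5cdb.All
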