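import Pool.Agent.MP_7c5cdb.All.RTrans
import Pool.Agent.MP_7c5cdb.All.RJordan
import Pool.Agent.MP_7c5cdb.All.Numbers2

set_option autoImplicit false
open MeasureTheory Set
open scoped ENNReal

namespace Pool.Agent.MP7c5cdb.All

variable {d : ℕ}

/-- The counts over `x` fit to the numbers `n, lam, mu, el`. -/
structure Cnt (Y : RLay d) (M : ℕ) (n lam : Fin Y.Γ → ℕ) (mu : Fin (Y.k + 1) → ℕ) (el : ℕ)
    (x : Fin d → ℝ) (fl : Fin Y.k → ℤ) : Prop where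
  grp : ∀ g, (rowsOf M x (Y.X g)).ncard ≤ n g ∧ n g ≤ (rowsOf M x (Y.X g)).ncard + lam g
  fl_le : ∀ e, |fl e| ≤ (el : ℤ)
  top : ∀ j : Fin (Y.k + 1), ((rowsOf M x (Y.N j)).ncard : ℤ) = (mu j : ℤ) +
    (∑ g, if Y.comp g = j then ((n g : ℤ) - ((rowsOf M x (Y.X g)).ncard : ℤ)) else 0) +
    ∑ e : Fin Y.k, ((if e.succ = j then (el : ℤ) + fl e else 0) +
      (if Y.par e = j then (el : ℤ) - fl e else 0))
  nb : ∀ j : Fin (Y.k + 1), Y.k * (2 * el) ≤ (rowsOf M x (Y.nb j)).ncard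

/-- ROW RN. Choice of the numbers. -/
theorem exists_rnumbers (hd : 0 < d) {Y : RLay d} (hY : Y.Good) :
    ∃ (M : ℕ) (n lam : Fin Y.Γ → ℕ) (mu : Fin (Y.k + 1) → ℕ) (el : ℕ), 0 < M ∧
      Y.Num n lam mu ∧ ∑ j, mu j + ∑ g, n g + Y.k * (2 * el) = M ^ d ∧
      ∀ x : Fin d → ℝ, ∃ fl, Cnt Y M n lam mu el x fl := by
  classical
  have hball := rvolume_ball_pos (d := d) Y.eta hY.eta_pos
  set B : ℝ≥0∞ := volume {v : Fin d → ℝ | sq v < Y.eta ^ 2} with hBdef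
  have hV : 0 < B.toReal := ENNReal.toReal_pos hball.1.ne' hball.2.ne
  have hnb : ∀ j, (volume (Y.nb j)).toReal = B.toReal := fun j => by
    rw [(rjordan_nb Y hY.eta_pos j).2.2.2]
  have hN : ∀ j, B.toReal ≤ (volume (Y.N j)).toReal := by
    intro j
    rw [← hnb j]
    refine ENNReal.toReal_mono ?_ (measure_mono (fun y hy => ?_))
    · exact (rjordan_N Y j).1.measure_lt_top.ne
    · obtain ⟨h1, h2, _⟩ := hY.nbhd j y hy
      exact ⟨h1, h2⟩
  obtain ⟨δ, hδ, m0, hmain⟩ := numbers_arith2 Y.comp Y.par hY.par_le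
    (fun g => (volume (Y.X g)).toReal) (fun j => (volume (Y.N j)).toReal)
    (fun j => (volume (Y.nb j)).toReal) hV (fun g => ENNReal.toReal_nonneg)
    (fun j => (hnb j).ge) hN (fun g => by
      have := hY.vol_small g
      linarith)
  choose MX hMX using fun g : Fin Y.Γ =>
    rcount_uniform (rjordan_X Y g).1 (rjordan_X Y g).2.1 (rjordan_X Y g).2.2 δ hδ
  choose MN hMN using fun j : Fin (Y.k + 1) =>
    rcount_uniform (rjordan_N Y j).1 (rjordan_N Y j).2.1 (rjordan_N Y j).2.2 δ hδ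
  choose MB hMB using fun j : Fin (Y.k + 1) =>
    rcount_uniform (rjordan_nb Y hY.eta_pos j).1 (rjordan_nb Y hY.eta_pos j).2.1
      (rjordan_nb Y hY.eta_pos j).2.2.1 δ hδ
  let M : ℕ := 4 + 4 * ⌈|m0|⌉₊ + ∑ g, MX g + ∑ j, MN j + ∑ j, MB j
  have hM4 : 4 + 4 * ⌈|m0|⌉₊ ≤ M := by
    simp only [M]
    omega
  have hM0 : 0 < M := by omega
  have hMXle : ∀ g, MX g ≤ M := by
    intro g
    have := Finset.single_le_sum (f := MX) (fun _ _ => Nat.zero_le _) (Finset.mem_univ g)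
    simp only [M]
    omega
  have hMNle : ∀ j, MN j ≤ M := by
    intro j
    have := Finset.single_le_sum (f := MN) (fun _ _ => Nat.zero_le _) (Finset.mem_univ j)
    simp only [M]
    omega
  have hMBle : ∀ j, MB j ≤ M := by
    intro j
    have := Finset.single_le_sum (f := MB) (fun _ _ => Nat.zero_le _) (Finset.mem_univ j)
    simp only [M]
    omega
  have hMr : 1 + |m0| ≤ (M : ℝ) / 4 := by
    have h1 : ((4 + 4 * ⌈|m0|⌉₊ : ℕ) : ℝ) ≤ (M : ℝ) := by exact_mod_cast hM4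
    push_cast at h1
    have h2 := Nat.le_ceil |m0|
    linarith
  have hM1 : 1 ≤ (M : ℝ) / 4 := by
    have := abs_nonneg m0
    linarith
  have hm0 : m0 ≤ ((M : ℝ) / 4) ^ d := by
    have h1 : (M : ℝ) / 4 ≤ ((M : ℝ) / 4) ^ d := le_self_pow₀ hM1 hd.ne'
    have h2 := le_abs_self m0
    linarith
  have hmpos : 0 < ((M : ℝ) / 4) ^ d := by positivity
  obtain ⟨n, lam, mu, el, h1, h2, h3, h4, h5⟩ := hmain (((M : ℝ) / 4) ^ d) hm0 hmpos
    (S := Fin d → ℝ) (fun x g => (rowsOf M x (Y.X g)).ncard)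
    (fun x j => (rowsOf M x (Y.N j)).ncard) (fun x j => (rowsOf M x (Y.nb j)).ncard) (M ^ d)
    (fun x g => hMX g M (hMXle g) hM0 x) (fun x j => hMN j M (hMNle j) hM0 x)
    (fun x j => hMB j M (hMBle j) hM0 x) (fun x => rcount_total hY hM0 x)
  refine ⟨M, n, lam, mu, el, hM0, ⟨h1, h2, h3⟩, h4, fun x => ?_⟩
  obtain ⟨h6, ⟨fl, h7, h8⟩, h9⟩ := h5 x
  exact ⟨fl, ⟨h6, h7, h8, h9⟩⟩

end Pool.Agent.MP7c5cdb.All
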