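import Pool.Agent.MP_7c5cdb.All.RNum
import Pool.Agent.Helper13.GE2

set_option autoImplicit false
open MeasureTheory Set
open scoped ENNReal

namespace Pool.Agent.MP7c5cdb.All

open Pool.Agent.Helper7.GPat

variable {d : ℕ}

/-- The pattern `T` describes the fibre over `x` with the representatives `rep`. -/
structure Descr {Y : RLay d} {n lam : Fin Y.Γ → ℕ} {mu : Fin (Y.k + 1) → ℕ}
    (h : Y.Num n lam mu) (l M : ℕ) (x : Fin d → ℝ) (φ : (Fin d → ℤ) →+ ℤ)
    (rep : RowT d M → Fin d → ℤ)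
    (T : Pool.Agent.Helper7.GPat.Pat (Y.des n lam mu h l) (Fin d → ℤ) (RowT d M)) :
    Prop where
  see : ∀ r P g m, T.see r P = some (g, m) ↔
    (pt M x (rep r) + per g ∈ bl (Y.posn n lam mu h l P) ∧ m = φ (rep r + (M : ℤ) • g))
  num : ∀ r, T.num r = φ (rep r)
  labX : ∀ r (g : Fin Y.Γ), T.lab r = .inl g ↔ pt M x (rep r) ∈ Y.X g
  labN : ∀ r (j : Fin (Y.k + 1)), T.lab r = .inr j ↔ pt M x (rep r) ∈ Y.N j

end Pool.Agent.MP7c5cdb.All
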