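import Pool.Agent.MP_7c5cdb.All.RDefs

set_option autoImplicit false
open MeasureTheory Set
open scoped ENNReal

namespace Pool.Agent.MP7c5cdb.All

variable {d : ℕ}

namespace RT

theorem per_zero : per (0 : Fin d → ℤ) = 0 := by
  funext i; simp [per]

theorem per_add (a b : Fin d → ℤ) : per (a + b) = per a + per b := by
  funext i; simp [per]; ring

theorem per_neg (a : Fin d → ℤ) : per (-a) = - per a := by
  funext i; simp [per]

theorem per_sub (a b : Fin d → ℤ) : per (a - b) = per a - per b := by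
  rw [sub_eq_add_neg, per_add, per_neg, sub_eq_add_neg]

theorem pt_add_smul {M : ℕ} (hM : 0 < M) (x : Fin d → ℝ) (p n : Fin d → ℤ) :
    pt M x (p + (M : ℤ) • n) = pt M x p + per n := by
  funext i
  have h : (M : ℝ) ≠ 0 := by exact_mod_cast hM.ne'
  simp only [pt, per, Pi.add_apply, Pi.smul_apply, smul_eq_mul]
  push_cast
  field_simp
  ring

/-- Squares of sums of three vectors. -/
theorem sq_add_three (a b c : Fin d → ℝ) : sq (a + b + c) ≤ 3 * (sq a + sq b + sq c) := by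
  unfold sq
  rw [← Finset.sum_add_distrib, ← Finset.sum_add_distrib, Finset.mul_sum]
  refine Finset.sum_le_sum fun i _ => ?_
  simp only [Pi.add_apply]
  nlinarith [sq_nonneg (a i - b i), sq_nonneg (b i - c i), sq_nonneg (a i - c i)]

theorem sq_neg' (v : Fin d → ℝ) : sq (-v) = sq v := by
  unfold sq; simp

theorem sq_per_ge {n : Fin d → ℤ} (hn : n ≠ 0) : 16 ≤ sq (per n) := by
  obtain ⟨i, hi⟩ := Function.ne_iff.1 hn
  have h1 : (per n i) ^ 2 ≤ sq (per n) :=
    Finset.single_le_sum (f := fun i => (per n i) ^ 2) (fun i _ => sq_nonneg _)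
      (Finset.mem_univ i)
  have h2 : (1 : ℤ) ≤ n i ^ 2 := by
    have := sq_nonneg (n i)
    have h3 : n i ^ 2 ≠ 0 := pow_ne_zero 2 hi
    omega
  have h3 : (1 : ℝ) ≤ (n i : ℝ) ^ 2 := by exact_mod_cast h2
  have h4 : (per n i) ^ 2 = 16 * (n i : ℝ) ^ 2 := by simp only [per]; ring
  linarith

theorem zone_unique {u u' y : Fin d → ℝ} (hu : sq (u - u') ≤ 1) (n : Fin d → ℤ)
    (h1 : y ∈ zone u u') (h2 : y + per n ∈ zone u u') : n = 0 := by
  by_contra hn
  have h3 := sq_per_ge hn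
  have key : ∀ a b : Fin d → ℝ, sq (a - b) ≤ 1 → sq (y - a) < 1 → sq (y + per n - b) < 1 →
      False := by
    intro a b hab ha hb
    have h4 := sq_add_three (y + per n - b) (b - a) (a - y)
    rw [show y + per n - b + (b - a) + (a - y) = per n by abel] at h4
    have h5 : sq (b - a) = sq (a - b) := by rw [← sq_neg', neg_sub]
    have h6 : sq (a - y) = sq (y - a) := by rw [← sq_neg', neg_sub]
    linarith
  have h0 : sq (0 : Fin d → ℝ) ≤ 1 := by simp [sq]
  have hu' : sq (u' - u) ≤ 1 := by rw [← sq_neg', neg_sub]; exact hu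
  have m1 : sq (y - u) < 1 ∨ sq (y - u') < 1 := by
    rcases h1 with h | h
    · exact Or.inl h.1
    · exact Or.inr h.1
  have m2 : sq (y + per n - u) < 1 ∨ sq (y + per n - u') < 1 := by
    rcases h2 with h | h
    · exact Or.inl h.1
    · exact Or.inr h.1
  rcases m1 with a | a <;> rcases m2 with b | b
  · exact key u u (by rw [sub_self]; exact h0) a b
  · exact key u u' hu a b
  · exact key u' u hu' a b
  · exact key u' u' (by rw [sub_self]; exact h0) a b

variable {Y : RLay d}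

theorem S_subset_SP (g : Fin Y.Γ) : Y.S g ⊆ Y.SP g := fun y hy =>
  ⟨0, by rw [per_zero, sub_zero]; exact hy⟩

theorem SP_add {g : Fin Y.Γ} {y : Fin d → ℝ} (n : Fin d → ℤ) :
    y + per n ∈ Y.SP g ↔ y ∈ Y.SP g := by
  constructor
  · rintro ⟨m, hm⟩
    refine ⟨m - n, ?_⟩
    rw [per_sub, show y - (per m - per n) = y + per n - per m by abel]
    exact hm
  · rintro ⟨m, hm⟩
    refine ⟨m + n, ?_⟩
    rw [per_add, show y + per n - (per m + per n) = y - per m by abel]
    exact hm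

theorem U_add {y : Fin d → ℝ} (n : Fin d → ℤ) : y + per n ∈ Y.U ↔ y ∈ Y.U :=
  forall_congr' fun _ => not_congr (SP_add n)

theorem X_subset_SP (g : Fin Y.Γ) : Y.X g ⊆ Y.SP g := fun _ hy => S_subset_SP g hy.1

theorem N_unique (hY : Y.Good) {j j' : Fin (Y.k + 1)} {y : Fin d → ℝ}
    (n : Fin d → ℤ) (h : y ∈ Y.N j) (h' : y + per n ∈ Y.N j') : j = j' ∧ n = 0 := by
  obtain ⟨j₀, n₀, -, h2, -⟩ := hY.uncut y h.1
  have h3 := (h2 j 0).1 (by rw [per_zero, sub_zero]; exact h.2)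
  have h4 := (h2 j' (-n)).1 (by rw [per_neg, sub_neg_eq_add]; exact h'.2)
  refine ⟨h3.1.trans h4.1.symm, ?_⟩
  have := h4.2.trans h3.2.symm
  exact neg_eq_zero.1 this

/-- The sets `X g` and `N j` meet every orbit of the period lattice. -/
theorem exists_mem (hY : Y.Good) (y : Fin d → ℝ) :
    ∃ n : Fin d → ℤ, (∃ g, y - per n ∈ Y.X g) ∨ ∃ j, y - per n ∈ Y.N j := by
  classical
  by_cases hU : y ∈ Y.U
  · obtain ⟨j₀, n₀, -, h2, -⟩ := hY.uncut y hU
    refine ⟨n₀, Or.inr ⟨j₀, ?_, (h2 j₀ n₀).2 ⟨rfl, rfl⟩⟩⟩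
    rw [sub_eq_add_neg, ← per_neg, U_add]
    exact hU
  · have h1 : ∃ g : Fin Y.Γ, y ∈ Y.SP g := by
      by_contra h
      exact hU fun g hg => h ⟨g, hg⟩
    have h2 : ∃ r : ℕ, ∃ g : Fin Y.Γ, (g : ℕ) = r ∧ y ∈ Y.SP g := by
      obtain ⟨g, hg⟩ := h1
      exact ⟨_, g, rfl, hg⟩
    obtain ⟨g, hg, n, hn⟩ := Nat.find_spec h2
    refine ⟨n, Or.inl ⟨g, hn, fun g' hg' hy => ?_⟩⟩
    rw [sub_eq_add_neg, ← per_neg, SP_add] at hy
    exact Nat.find_min h2 (m := (g' : ℕ)) (by rw [← hg]; exact hg') ⟨g', rfl, hy⟩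

/-- Uniqueness of the representative. -/
theorem rep_unique (hY : Y.Good) {y : Fin d → ℝ} (n : Fin d → ℤ)
    (h : (∃ g, y ∈ Y.X g) ∨ ∃ j, y ∈ Y.N j)
    (h' : (∃ g, y + per n ∈ Y.X g) ∨ ∃ j, y + per n ∈ Y.N j) : n = 0 := by
  rcases h with ⟨g, hg⟩ | ⟨j, hj⟩ <;> rcases h' with ⟨g', hg'⟩ | ⟨j', hj'⟩
  · have hz : y ∈ Y.SP g' := (SP_add n).1 (X_subset_SP g' hg')
    have hz' : y + per n ∈ Y.SP g := (SP_add n).2 (X_subset_SP g hg)
    have heq : g = g' := by
      rcases lt_trichotomy g g' with hlt | heq | hlt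
      · exact absurd hz' (hg'.2 g hlt)
      · exact heq
      · exact absurd hz (hg.2 g' hlt)
    subst heq
    exact zone_unique ((hY.close g).trans (by norm_num)) n hg.1 hg'.1
  · exact absurd (X_subset_SP g hg) ((U_add n).1 hj'.1 g)
  · exact absurd (X_subset_SP g' hg') ((U_add n).2 hj.1 g')
  · exact (N_unique hY n hj hj').2

end RT

/-- ROW RT. Disjointness of the row sets. -/
theorem rX_disjoint {Y : RLay d} (_hY : Y.Good) {g g' : Fin Y.Γ} (h : g ≠ g') :
    Disjoint (Y.X g) (Y.X g') := by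
  rw [Set.disjoint_left]
  intro y hy hy'
  rcases lt_or_gt_of_ne h with hlt | hlt
  · exact hy'.2 g hlt (RT.S_subset_SP g hy.1)
  · exact hy.2 g' hlt (RT.S_subset_SP g' hy'.1)

theorem rX_N_disjoint {Y : RLay d} (_hY : Y.Good) (g : Fin Y.Γ) (j : Fin (Y.k + 1)) :
    Disjoint (Y.X g) (Y.N j) := by
  rw [Set.disjoint_left]
  intro y hy hy'
  exact hy'.1 g (RT.X_subset_SP g hy)

theorem rN_disjoint {Y : RLay d} (hY : Y.Good) {j j' : Fin (Y.k + 1)} (h : j ≠ j') :
    Disjoint (Y.N j) (Y.N j') := by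
  rw [Set.disjoint_left]
  intro y hy hy'
  exact h (RT.N_unique hY 0 hy (by rw [RT.per_zero, add_zero]; exact hy')).1

/-- The rows in the sets `X g`, `N j` form a transversal of `ℤ^d` modulo `M`. -/
theorem rtransversal {Y : RLay d} (hY : Y.Good) {M : ℕ} (hM : 0 < M) (x : Fin d → ℝ)
    (p : Fin d → ℤ) :
    ∃! r : (Fin d → ℤ) × (Fin d → ℤ),
      ((∃ g, pt M x r.1 ∈ Y.X g) ∨ ∃ j, pt M x r.1 ∈ Y.N j) ∧ p = r.1 + (M : ℤ) • r.2 := by
  obtain ⟨n, hn⟩ := RT.exists_mem hY (pt M x p)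
  have h1 : pt M x (p - (M : ℤ) • n) = pt M x p - per n := by
    have := RT.pt_add_smul hM x p (-n)
    rw [smul_neg, ← sub_eq_add_neg, RT.per_neg, ← sub_eq_add_neg] at this
    exact this
  refine ⟨(p - (M : ℤ) • n, n), ⟨?_, by simp⟩, ?_⟩
  · rw [h1]; exact hn
  · rintro ⟨q, m⟩ ⟨hq, hp⟩
    simp only at hq hp
    have h2 : pt M x (p - (M : ℤ) • n) = pt M x q + per (m - n) := by
      rw [← RT.pt_add_smul hM, hp]
      congr 1
      rw [smul_sub]
      abel
    have h3 : m - n = 0 := by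
      refine RT.rep_unique hY (m - n) hq ?_
      rw [← h2, h1]
      exact hn
    have h4 : m = n := sub_eq_zero.1 h3
    subst h4
    rw [hp]
    simp

/-- The type of the row classes. -/
abbrev RowT (d M : ℕ) : Type := Fin d → Fin M

/-- A choice of representatives of the row classes: they lie in the sets `X g`, `N j`. -/
structure Rep (Y : RLay d) (M : ℕ) (x : Fin d → ℝ) (rep : RowT d M → Fin d → ℤ) : Prop where
  mem : ∀ r, (∃ g, pt M x (rep r) ∈ Y.X g) ∨ ∃ j, pt M x (rep r) ∈ Y.N j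
  tr : ∀ p : Fin d → ℤ, ∃! rg : RowT d M × (Fin d → ℤ), p = rep rg.1 + (M : ℤ) • rg.2
  surj : ∀ p : Fin d → ℤ, ((∃ g, pt M x p ∈ Y.X g) ∨ ∃ j, pt M x p ∈ Y.N j) → ∃ r, rep r = p

theorem Rep.inj {Y : RLay d} {M : ℕ} {x : Fin d → ℝ} {rep : RowT d M → Fin d → ℤ}
    (h : Rep Y M x rep) : Function.Injective rep := by
  intro r r' hr
  obtain ⟨q, -, hq⟩ := h.tr (rep r)
  have h1 := hq (r, 0) (by simp)
  have h2 := hq (r', 0) (by simp [hr])
  exact (Prod.mk.inj (h1.trans h2.symm)).1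

/-- Division with remainder. -/
theorem RT.exists_div {M : ℕ} (hM : 0 < M) (p : Fin d → ℤ) :
    ∃ (r : RowT d M) (n : Fin d → ℤ), p = (fun i => ((r i : ℕ) : ℤ)) + (M : ℤ) • n := by
  have hM' : (0 : ℤ) < M := by exact_mod_cast hM
  refine ⟨fun i => ⟨(p i % M).toNat, ?_⟩, fun i => p i / M, ?_⟩
  · have h1 := Int.emod_lt_of_pos (p i) hM'
    have h2 := Int.emod_nonneg (p i) hM'.ne'
    omega
  · funext i
    have h2 := Int.emod_nonneg (p i) hM'.ne'
    simp only [Pi.add_apply, Pi.smul_apply, smul_eq_mul]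
    rw [Int.toNat_of_nonneg h2]
    exact (Int.emod_add_mul_ediv (p i) M).symm

theorem RT.div_unique {M : ℕ} (hM : 0 < M) {r r' : RowT d M} {n n' : Fin d → ℤ}
    (h : (fun i => ((r i : ℕ) : ℤ)) + (M : ℤ) • n = (fun i => ((r' i : ℕ) : ℤ)) + (M : ℤ) • n') :
    r = r' ∧ n = n' := by
  have hM' : (0 : ℤ) < M := by exact_mod_cast hM
  have key : ∀ i, r i = r' i ∧ n i = n' i := by
    intro i
    have h1 := congrFun h i
    simp only [Pi.add_apply, Pi.smul_apply, smul_eq_mul] at h1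
    have h2 := (r i).2
    have h3 := (r' i).2
    have h4 : ((r i : ℕ) : ℤ) % M = ((r' i : ℕ) : ℤ) % M := by
      have h5 := congrArg (· % (M : ℤ)) h1
      simpa using h5
    rw [Int.emod_eq_of_lt (by omega) (by omega), Int.emod_eq_of_lt (by omega) (by omega)] at h4
    refine ⟨Fin.ext (by omega), ?_⟩
    have h6 : (M : ℤ) * n i = M * n' i := by linarith
    exact mul_left_cancel₀ hM'.ne' h6
  exact ⟨funext fun i => (key i).1, funext fun i => (key i).2⟩

theorem exists_rep {Y : RLay d} (hY : Y.Good) {M : ℕ} (hM : 0 < M) (x : Fin d → ℝ) :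
    ∃ rep, Rep Y M x rep := by
  have key : ∀ r : RowT d M, ∃ q : (Fin d → ℤ) × (Fin d → ℤ),
      ((∃ g, pt M x q.1 ∈ Y.X g) ∨ ∃ j, pt M x q.1 ∈ Y.N j) ∧
        (fun i => ((r i : ℕ) : ℤ)) = q.1 + (M : ℤ) • q.2 := fun r =>
    (rtransversal hY hM x fun i => ((r i : ℕ) : ℤ)).exists
  choose q hq1 hq2 using key
  have hrep : ∀ r, (q r).1 = (fun i => ((r i : ℕ) : ℤ)) + (M : ℤ) • (-(q r).2) := by
    intro r
    rw [hq2 r, smul_neg]
    abel
  refine ⟨fun r => (q r).1, hq1, fun p => ?_, fun p hp => ?_⟩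
  · obtain ⟨r, n, hrn⟩ := RT.exists_div hM p
    refine ⟨(r, (q r).2 + n), ?_, ?_⟩
    · simp only
      rw [smul_add, ← add_assoc, ← hq2 r, hrn]
    · rintro ⟨r', n'⟩ h
      simp only at h
      rw [hrep r', add_assoc, ← smul_add, hrn] at h
      obtain ⟨h1, h2⟩ := RT.div_unique hM h
      subst h1
      rw [h2]
      simp
  · obtain ⟨r, n, hrn⟩ := RT.exists_div hM p
    refine ⟨r, ?_⟩
    obtain ⟨s, -, hs⟩ := rtransversal hY hM x p
    have h1 := hs (p, 0) ⟨hp, by simp⟩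
    have h2 := hs ((q r).1, (q r).2 + n) ⟨hq1 r, by
      simp only
      rw [smul_add, ← add_assoc, ← hq2 r, hrn]⟩
    exact (Prod.mk.inj (h2.trans h1.symm)).1

open Classical in
theorem Rep.card_of {Y : RLay d} {M : ℕ} {x : Fin d → ℝ} {rep : RowT d M → Fin d → ℤ}
    (h : Rep Y M x rep) (A : Set (Fin d → ℝ))
    (hA : ∀ y ∈ A, (∃ g, y ∈ Y.X g) ∨ ∃ j, y ∈ Y.N j) :
    (Finset.univ.filter (fun r => pt M x (rep r) ∈ A)).card = (rowsOf M x A).ncard := by
  have h1 : rowsOf M x A =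
      rep '' ((Finset.univ.filter (fun r => pt M x (rep r) ∈ A) : Finset (RowT d M)) :
        Set (RowT d M)) := by
    ext p
    constructor
    · intro hp
      obtain ⟨r, hr⟩ := h.surj p (hA _ hp)
      refine ⟨r, ?_, hr⟩
      rw [Finset.mem_coe, Finset.mem_filter]
      refine ⟨Finset.mem_univ _, ?_⟩
      rw [hr]
      exact hp
    · rintro ⟨r, hr, rfl⟩
      rw [Finset.mem_coe, Finset.mem_filter] at hr
      exact hr.2
  rw [h1, (h.inj.injOn).ncard_image, Set.ncard_coe_finset]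

open Classical in
/-- Counts in terms of representatives. -/
theorem Rep.card_X {Y : RLay d} {M : ℕ} {x : Fin d → ℝ} {rep : RowT d M → Fin d → ℤ}
    (h : Rep Y M x rep) (g : Fin Y.Γ) :
    (Finset.univ.filter (fun r => pt M x (rep r) ∈ Y.X g)).card =
      (rowsOf M x (Y.X g)).ncard :=
  h.card_of (Y.X g) fun _ hy => Or.inl ⟨g, hy⟩

open Classical in
theorem Rep.card_N {Y : RLay d} {M : ℕ} {x : Fin d → ℝ} {rep : RowT d M → Fin d → ℤ}
    (h : Rep Y M x rep) (j : Fin (Y.k + 1)) :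
    (Finset.univ.filter (fun r => pt M x (rep r) ∈ Y.N j)).card =
      (rowsOf M x (Y.N j)).ncard :=
  h.card_of (Y.N j) fun _ hy => Or.inr ⟨j, hy⟩

open Classical in
theorem Rep.card_nb {Y : RLay d} (hY : Y.Good) {M : ℕ} {x : Fin d → ℝ}
    {rep : RowT d M → Fin d → ℤ} (h : Rep Y M x rep) (j : Fin (Y.k + 1)) :
    (Finset.univ.filter (fun r => pt M x (rep r) ∈ Y.nb j)).card =
      (rowsOf M x (Y.nb j)).ncard :=
  h.card_of (Y.nb j) fun y hy => Or.inr ⟨j, (hY.nbhd j y hy).1, (hY.nbhd j y hy).2.1⟩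

/-- Total number of rows. -/
theorem rcount_total {Y : RLay d} (hY : Y.Good) {M : ℕ} (hM : 0 < M) (x : Fin d → ℝ) :
    ∑ g, (rowsOf M x (Y.X g)).ncard + ∑ j, (rowsOf M x (Y.N j)).ncard = M ^ d := by
  classical
  obtain ⟨rep, hrep⟩ := exists_rep hY hM x
  have h1 : ∑ g, (rowsOf M x (Y.X g)).ncard =
      (Finset.univ.filter (fun r => ∃ g, pt M x (rep r) ∈ Y.X g)).card := by
    rw [Finset.sum_congr rfl fun g _ => (hrep.card_X g).symm, ← Finset.card_biUnion]
    · congr 1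
      ext r
      simp
    · intro g _ g' _ hgg
      rw [Function.onFun, Finset.disjoint_left]
      intro r hr hr'
      rw [Finset.mem_filter] at hr hr'
      exact Set.disjoint_left.1 (rX_disjoint hY hgg) hr.2 hr'.2
  have h2 : ∑ j, (rowsOf M x (Y.N j)).ncard =
      (Finset.univ.filter (fun r => ¬ ∃ g, pt M x (rep r) ∈ Y.X g)).card := by
    rw [Finset.sum_congr rfl fun j _ => (hrep.card_N j).symm, ← Finset.card_biUnion]
    · congr 1
      ext r
      simp only [Finset.mem_biUnion, Finset.mem_filter, Finset.mem_univ, true_and]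
      constructor
      · rintro ⟨j, hj⟩ ⟨g, hg⟩
        exact Set.disjoint_left.1 (rX_N_disjoint hY g j) hg hj
      · intro hr
        exact (hrep.mem r).resolve_left hr
    · intro j _ j' _ hjj
      rw [Function.onFun, Finset.disjoint_left]
      intro r hr hr'
      rw [Finset.mem_filter] at hr hr'
      exact Set.disjoint_left.1 (rN_disjoint hY hjj) hr.2 hr'.2
  rw [h1, h2, Finset.card_filter_add_card_filter_not, Finset.card_univ, Fintype.card_fun,
    Fintype.card_fin, Fintype.card_fin]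

end Pool.Agent.MP7c5cdb.All
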