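import Pool.Agent.MP_7c5cdb.RowA
import Pool.Agent.MP_7c5cdb.All.Defs

set_option autoImplicit false
open MeasureTheory Set
open scoped ENNReal

namespace Pool.Agent.MP7c5cdb.All

variable {d : ℕ}

/-- The representatives of a fibre give a bijection of the columns with the classes. -/
lemma rep_bijective {κ : Type} {M : ℕ} [NeZero M] (R : κ → Fin d → ℤ)
    (hR : ∀ p : Fin d → ℤ, ∃! r : κ × (Fin d → ℤ), p = R r.1 + (M : ℤ) • r.2) :
    Function.Bijective (fun k : κ => (latEquiv d M (R k)).2) := by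
  constructor
  · intro k k' h
    have h1 := latEquiv_snd_eq d M (p := R k) (q := R k') h
    obtain ⟨r, _, hu⟩ := hR (R k)
    have h2 := hu (k, 0) (by simp)
    have h3 := hu (k', _) h1
    rw [← h2] at h3
    exact (congrArg Prod.fst h3).symm
  · intro ρ
    obtain ⟨r, hr, _⟩ := hR ((latEquiv d M).symm (0, ρ))
    refine ⟨r.1, ?_⟩
    have h1 := congrArg (fun p => (latEquiv d M p).2) hr
    simp only [Equiv.apply_symm_apply, latEquiv_add] at h1
    exact h1.symm

/-- ROW A. Periodic layer with arbitrary real positions. The fibre over `x` is described by one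
choice of row representatives `R` (depending on `x`, bounded) and the visibility sets. -/
theorem exists_isGRB_of_dom {κ : Type} [Fintype κ] [DecidableEq κ] (M : ℕ) (hM : 0 < M)
    {Ω : Set (Fin d → ℝ)} (hm : MeasurableSet Ω) (hb : ∃ B : ℝ, ∀ y ∈ Ω, ∀ i, |y i| ≤ B)
    (q a : κ → Fin d → ℝ) (C : ℤ)
    (hx : ∀ x ∈ cube d, ∃ (R : κ → Fin d → ℤ) (vis : κ → κ → Finset (Fin d → ℤ)),
      (∀ ρ i, |R ρ i| ≤ C) ∧
      (∀ p : Fin d → ℤ, ∃! r : κ × (Fin d → ℤ), p = R r.1 + (M : ℤ) • r.2) ∧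
      (∀ ρ c g, g ∈ vis ρ c ↔
        (fun i => x i + ((R ρ i : ℝ) + (M : ℝ) * (g i : ℝ)) - q c i) ∈ Ω) ∧
      DomAt (Matrix.det (fun ρ c => ∑ g ∈ vis ρ c,
        AddMonoidAlgebra.single g
          (ee (∑ i, a c i * ((R ρ i : ℝ) + (M : ℝ) * (g i : ℝ))))))) :
    ∃ S, IsGRB Ω S := by
  classical
  have : NeZero M := ⟨hM.ne'⟩
  obtain ⟨R0, _, _, hR0, _, _⟩ := hx (fun _ => 1) (fun i => by norm_num)
  let e0 : κ ≃ Fin (M ^ d) := Equiv.ofBijective _ (rep_bijective R0 hR0)
  let D : PerData2 d (M ^ d) (Fin d → ℤ) :=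
    { e := latEquiv d M
      ι := { toFun := fun g => (M : ℤ) • g
             map_zero' := smul_zero _
             map_add' := smul_add _ }
      he := latEquiv_add d M
      m := fun k => q (e0.symm k)
      a0 := fun k => a (e0.symm k) }
  refine exists_isGRB_of_rep' D hm hb (fun x hxc => ?_)
  obtain ⟨R, vis, _, hR, hvis, hdom⟩ := hx x hxc
  let σ : κ ≃ Fin (M ^ d) := Equiv.ofBijective _ (rep_bijective R hR)
  have hσ : ∀ k, σ k = (latEquiv d M (R k)).2 := fun k => rfl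
  let A : Matrix κ κ (AddMonoidAlgebra ℂ (Fin d → ℤ)) := fun ρ c => ∑ g ∈ vis ρ c,
        AddMonoidAlgebra.single g
          (ee (∑ i, a c i * ((R ρ i : ℝ) + (M : ℝ) * (g i : ℝ))))
  refine ⟨fun ρ => R (σ.symm ρ), ?_, A.submatrix σ.symm e0.symm, ?_,
      domAt_det_reindex A σ.symm e0.symm hdom⟩
  · intro ρ
    show (latEquiv d M (R (σ.symm ρ))).2 = ρ
    rw [← hσ, Equiv.apply_symm_apply]
  · intro ρ k g
    have hι : ∀ i, (D.ι g) i = (M : ℤ) * g i := fun i => rfl
    have hmm : ∀ i, (D.m k) i = q (e0.symm k) i := fun i => rfl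
    have ha0 : ∀ i, (D.a0 k) i = a (e0.symm k) i := fun i => rfl
    have harg : x + zv (R (σ.symm ρ) + D.ι g) - D.m k =
        fun i => x i + ((R (σ.symm ρ) i : ℝ) + (M : ℝ) * (g i : ℝ)) - q (e0.symm k) i := by
      funext i
      simp only [zv, Pi.add_apply, Pi.sub_apply, hι, hmm]
      push_cast
      ring
    have hcoeff : ((A.submatrix σ.symm e0.symm) ρ k).coeff g =
        if g ∈ vis (σ.symm ρ) (e0.symm k) then
          ee (∑ i, a (e0.symm k) i * ((R (σ.symm ρ) i : ℝ) + (M : ℝ) * (g i : ℝ))) else 0 := by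
      rw [Matrix.submatrix_apply]
      have hA : A (σ.symm ρ) (e0.symm k) = ∑ g' ∈ vis (σ.symm ρ) (e0.symm k),
        AddMonoidAlgebra.single g'
          (ee (∑ i, a (e0.symm k) i * ((R (σ.symm ρ) i : ℝ) + (M : ℝ) * (g' i : ℝ)))) := rfl
      rw [hA, AddMonoidAlgebra.coeff_sum, Finsupp.finsetSum_apply]
      simp only [AddMonoidAlgebra.coeff_single, Finsupp.single_apply]
      rw [Finset.sum_ite_eq']
    have hchi : D.chi k (R (σ.symm ρ) + D.ι g) =
        ee (∑ i, a (e0.symm k) i * ((R (σ.symm ρ) i : ℝ) + (M : ℝ) * (g i : ℝ))) := by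
      unfold PerData2.chi
      congr 1
      refine Finset.sum_congr rfl (fun i _ => ?_)
      rw [ha0, Pi.add_apply, hι]
      push_cast
      ring
    show (x + zv (R (σ.symm ρ) + D.ι g) - D.m k ∈ Ω →
        ((A.submatrix σ.symm e0.symm) ρ k).coeff g = D.chi k (R (σ.symm ρ) + D.ι g)) ∧
      (x + zv (R (σ.symm ρ) + D.ι g) - D.m k ∉ Ω →
        ((A.submatrix σ.symm e0.symm) ρ k).coeff g = 0)
    rw [harg, hchi]
    constructor
    · intro h
      exact hcoeff.trans (if_pos ((hvis _ _ _).2 h))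
    · intro h
      exact hcoeff.trans (if_neg (fun h2 => h ((hvis _ _ _).1 h2)))

end Pool.Agent.MP7c5cdb.All
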