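import Pool.Agent.MP_7c5cdb.Change

set_option autoImplicit false
open MeasureTheory Set
open scoped ENNReal

namespace Pool.Agent.MP7c5cdb.All

/-- ROW F2. All balls, from one ball. -/
theorem exists_ball_of_radius {d : ℕ}
    (h : ∃ r : ℝ, 0 < r ∧ ∃ S, IsGRB {y : Fin d → ℝ | ∑ i, (y i) ^ 2 < r ^ 2} S)
    (z : Fin d → ℝ) (r : ℝ) (hr : 0 < r) :
    ∃ S, IsGRB {y : Fin d → ℝ | ∑ i, (y i - z i) ^ 2 < r ^ 2} S := by
  refine exists_isGRB_ball ?_ z r hr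
  obtain ⟨r0, hr0, hS⟩ := h
  refine exists_isGRB_linear (r0⁻¹ • (1 : Matrix (Fin d) (Fin d) ℝ)) ?_ ?_
  · rw [Matrix.det_smul, Matrix.det_one, mul_one]
    exact pow_ne_zero _ (inv_ne_zero hr0.ne')
  · have h2 : {u : Fin d → ℝ | (r0⁻¹ • (1 : Matrix (Fin d) (Fin d) ℝ)).mulVec u ∈
        {y : Fin d → ℝ | ∑ i, (y i) ^ 2 < 1}} = {y : Fin d → ℝ | ∑ i, (y i) ^ 2 < r0 ^ 2} := by
      ext u
      have h3 : (r0⁻¹ • (1 : Matrix (Fin d) (Fin d) ℝ)).mulVec u = fun i => r0⁻¹ * u i := by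
        rw [Matrix.smul_mulVec, Matrix.one_mulVec]
        rfl
      have h4 : ∑ i, ((fun i => r0⁻¹ * u i) i) ^ 2 = (r0 ^ 2)⁻¹ * ∑ i, (u i) ^ 2 := by
        rw [Finset.mul_sum]
        refine Finset.sum_congr rfl (fun i _ => ?_)
        change (r0⁻¹ * u i) ^ 2 = _
        rw [mul_pow, inv_pow]
      rw [Set.mem_setOf_eq, h3, Set.mem_setOf_eq, h4, Set.mem_setOf_eq]
      rw [inv_mul_lt_iff₀ (by positivity), mul_one]
    rw [h2]
    exact hS

/-- ROW F3. Dimension zero. -/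
theorem exists_ball_zero (z : Fin 0 → ℝ) (r : ℝ) (hr : 0 < r) :
    ∃ S, IsGRB {y : Fin 0 → ℝ | ∑ i, (y i - z i) ^ 2 < r ^ 2} S := by
  have hr2 : (0 : ℝ) < r ^ 2 := by positivity
  have hΩ : {y : Fin 0 → ℝ | ∑ i, (y i - z i) ^ 2 < r ^ 2} = Set.univ := by
    ext y
    simpa using hr2
  rw [hΩ]
  have hg : ∀ (p : (Fin 0 → ℝ) × (Fin 0 → ℝ)) (x : Fin 0 → ℝ), gab Set.univ p x = 1 := by
    intro p x
    simp [gab]
  have hv : (volume : Measure (Fin 0 → ℝ)) = Measure.dirac default := by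
    rw [volume_pi, Measure.pi_of_empty]
    congr 1
    exact Subsingleton.elim _ _
  have hi : ∀ f : (Fin 0 → ℝ) → ℝ, ∫ x, f x = f default := by
    intro f
    rw [hv, integral_dirac]
  have hF : ∀ (F : Finset ((Fin 0 → ℝ) × (Fin 0 → ℝ))) (c : (Fin 0 → ℝ) × (Fin 0 → ℝ) → ℂ),
      ‖∑ p ∈ F, c p‖ ^ 2 = ∑ p ∈ F, ‖c p‖ ^ 2 := by
    intro F c
    rcases F.eq_empty_or_nonempty with rfl | ⟨p, hp⟩
    · simp
    · have : F = {p} := by
        ext q
        simp only [Finset.mem_singleton]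
        exact ⟨fun _ => Subsingleton.elim _ _, fun h => by rw [h]; exact hp⟩
      rw [this, Finset.sum_singleton, Finset.sum_singleton]
  refine ⟨Set.univ, 1, 1, one_pos, one_pos, fun F _ c => ?_, fun f _ ε hε => ?_⟩
  · simp only [hg, mul_one, hi, one_mul, hF]
    exact ⟨le_rfl, le_rfl⟩
  · refine ⟨{default}, Set.subset_univ _, fun _ => f default, ?_⟩
    simp only [hg, mul_one, hi, Finset.sum_singleton, sub_self, norm_zero]
    simpa using hε

end Pool.Agent.MP7c5cdb.All
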