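import Pool.Agent.MP_7c5cdb.All.Defs
import Pool.Agent.MP_7c5cdb.GeoB

set_option autoImplicit false
open MeasureTheory Set
open scoped ENNReal

namespace Pool.Agent.MP7c5cdb.All

/-! ### Transfer to the Euclidean norm -/

namespace Tr

variable {d : ℕ}

/-- The vector, with the Euclidean norm. -/
noncomputable def te (v : Fin d → ℝ) : EuclideanSpace ℝ (Fin d) := WithLp.toLp 2 v

theorem te_sub (v w : Fin d → ℝ) : te (v - w) = te v - te w := rfl

theorem te_add (v w : Fin d → ℝ) : te (v + w) = te v + te w := rfl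

theorem te_smul (c : ℝ) (v : Fin d → ℝ) : te (c • v) = c • te v := rfl

theorem te_inj {v w : Fin d → ℝ} (h : te v = te w) : v = w := by
  have := congrArg WithLp.ofLp h
  exact this

theorem sq_eq (v : Fin d → ℝ) : sq v = ‖te v‖ ^ 2 := by
  unfold sq te
  rw [EuclideanSpace.norm_sq_eq]
  refine Finset.sum_congr rfl fun i _ => ?_
  simp

theorem sq_le_iff {v : Fin d → ℝ} {r : ℝ} (hr : 0 ≤ r) : sq v ≤ r ^ 2 ↔ ‖te v‖ ≤ r := by
  rw [sq_eq]
  exact pow_le_pow_iff_left₀ (norm_nonneg _) hr (by norm_num)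

theorem le_sq_iff {v : Fin d → ℝ} {r : ℝ} (hr : 0 ≤ r) : r ^ 2 ≤ sq v ↔ r ≤ ‖te v‖ := by
  rw [sq_eq]
  exact pow_le_pow_iff_left₀ hr (norm_nonneg _) (by norm_num)

theorem sq_lt_iff {v : Fin d → ℝ} {r : ℝ} (hr : 0 ≤ r) : sq v < r ^ 2 ↔ ‖te v‖ < r := by
  rw [sq_eq]
  exact pow_lt_pow_iff_left₀ (norm_nonneg _) hr (by norm_num)

theorem mem_bl {y u : Fin d → ℝ} : y ∈ bl u ↔ ‖te y - te u‖ < 1 := by
  have h := sq_lt_iff (v := y - u) (r := 1) zero_le_one
  rw [one_pow, te_sub] at h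
  exact h

theorem per_add (m n : Fin d → ℤ) : per (m + n) = per m + per n := by
  funext i
  simp only [per, Pi.add_apply]
  push_cast
  ring

theorem per_neg (n : Fin d → ℤ) : per (-n) = -per n := by
  funext i
  simp only [per, Pi.neg_apply]
  push_cast
  ring

theorem per_zero : per (0 : Fin d → ℤ) = 0 := by
  funext i
  simp [per]

theorem per_inj {m n : Fin d → ℤ} (h : per m = per n) : m = n := by
  funext i
  have h1 := congrFun h i
  simp only [per] at h1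
  have h2 : (m i : ℝ) = n i := by linarith
  exact_mod_cast h2

/-- The period lattice. -/
noncomputable def PL (d : ℕ) : AddSubgroup (EuclideanSpace ℝ (Fin d)) where
  carrier := {x | ∃ n : Fin d → ℤ, x = te (per n)}
  zero_mem' := ⟨0, by rw [per_zero]; rfl⟩
  add_mem' := by
    rintro _ _ ⟨m, rfl⟩ ⟨n, rfl⟩
    exact ⟨m + n, by rw [per_add]; rfl⟩
  neg_mem' := by
    rintro _ ⟨m, rfl⟩
    exact ⟨-m, by rw [per_neg]; rfl⟩

theorem mem_PL (n : Fin d → ℤ) : te (per n) ∈ PL d := ⟨n, rfl⟩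

theorem te_per_ne {n : Fin d → ℤ} : te (per n) ≠ 0 ↔ n ≠ 0 := by
  constructor
  · rintro h rfl
    exact h (by rw [per_zero]; rfl)
  · intro h h2
    refine h (per_inj ?_)
    rw [per_zero]
    exact te_inj h2

theorem norm_per {n : Fin d → ℤ} (hn : n ≠ 0) : 4 ≤ ‖te (per n)‖ := by
  rw [← le_sq_iff (by norm_num)]
  obtain ⟨i, hi⟩ := Function.ne_iff.1 hn
  have h1 : (per n i) ^ 2 ≤ sq (per n) :=
    Finset.single_le_sum (f := fun i => (per n i) ^ 2) (fun _ _ => sq_nonneg _)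
      (Finset.mem_univ i)
  refine le_trans ?_ h1
  have h2 : (1 : ℝ) ≤ (n i : ℝ) ^ 2 := by
    have : (1 : ℤ) ≤ (n i) ^ 2 := by
      have h3 : n i ≠ 0 := hi
      have := sq_nonneg (n i)
      have h4 : (n i) ^ 2 ≠ 0 := pow_ne_zero 2 h3
      omega
    exact_mod_cast this
  simp only [per]
  nlinarith

theorem PL_norm : ∀ p ∈ PL d, p ≠ 0 → 4 ≤ ‖p‖ := by
  rintro _ ⟨n, rfl⟩ hp
  exact norm_per (te_per_ne.1 hp)

theorem PL_cocompact (y : EuclideanSpace ℝ (Fin d)) :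
    ∃ p ∈ PL d, y - p ∈ Metric.closedBall (0 : EuclideanSpace ℝ (Fin d)) (4 * (d + 1)) := by
  refine ⟨te (per fun i => ⌊y i / 4⌋), mem_PL _, ?_⟩
  rw [mem_closedBall_zero_iff]
  have h1 : y - te (per fun i => ⌊y i / 4⌋) =
      te (fun i => y i - 4 * (⌊y i / 4⌋ : ℝ)) := rfl
  rw [h1, ← sq_le_iff (by positivity)]
  unfold sq
  have h2 : ∀ i : Fin d, (y i - 4 * (⌊y i / 4⌋ : ℝ)) ^ 2 ≤ 16 := by
    intro i
    have h3 := Int.floor_le (y i / 4)
    have h4 := Int.lt_floor_add_one (y i / 4)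
    have h5 : 0 ≤ y i - 4 * (⌊y i / 4⌋ : ℝ) := by linarith
    have h6 : y i - 4 * (⌊y i / 4⌋ : ℝ) ≤ 4 := by linarith
    nlinarith
  refine (Finset.sum_le_sum fun i _ => h2 i).trans ?_
  rw [Finset.sum_const, Finset.card_univ, Fintype.card_fin, nsmul_eq_mul]
  have hd : (0 : ℝ) ≤ d := Nat.cast_nonneg d
  nlinarith

end Tr

end Pool.Agent.MP7c5cdb.All
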